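import Pool.Agent.L7h52.AR.Stm

/-! Project LF (helper52), hard anchor MP_0ec205_nt: linear forms in the ordinates on average over the
coefficients.  Exact statements. `Dat`, `G`, `cnt` are in `L7h52/AR/Stm.lean` (imports only Mathlib). -/

set_option autoImplicit false

open Finset MeasureTheory

namespace Pool.Agent.L7h52.LF

open Pool.Agent.L7h52.AR (G Dat cnt)

/-- [LS] large sieve.  Proof: for each `w`, with `I = [w - 1/(2T), w + 1/(2T)]`,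
`‖G w‖ ^ 2 ≤ T ∫_I ‖G‖ ^ 2 + 2 ∫_I ‖G‖ ‖G'‖` (Gallagher), and the intervals `I` are disjoint; hence the
sum is at most `2 T ∫ ‖G‖ ^ 2 + (1 / T) ∫ ‖G'‖ ^ 2` over `[-V - 1, V + 1]`.  The first integral is bounded by
`Pool.Agent.L7h52.AR.msq` (`L7h52/AR/Four.lean`): `≤ 44 e (C T ℓ)` over `[-e, e]`, `e ≥ ℓ`.  The second
one (`G' = ∑ i x exp (i v x)`, coefficients at most `T`): as `KK ≥ 0` (see the proof of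
`TH801.LR.l2` in `TH801/LR/Cnt.lean`), `∫_{-e}^e ‖∑ c_x exp (i v x)‖ ^ 2 ≤ 2 ∫ tri (2 e) ‖∑ c_x exp‖ ^ 2
= 2 ∑∑ c_x c_x' KK (x - x') ≤ 2 T ^ 2 ∑∑ KK (x - x') = 2 T ^ 2 ∫ tri (2 e) ‖G‖ ^ 2`. -/
def S_LS : Prop := ∀ C : ℝ, 1 ≤ C → ∃ K : ℝ, 1 ≤ K ∧ ∀ (Γ : Finset ℝ) (T ℓ : ℝ), Dat Γ T ℓ C →
  ∀ (V : ℝ) (W : Finset ℝ), ℓ ≤ V → (∀ w ∈ W, |w| ≤ V) →
    (∀ w ∈ W, ∀ w' ∈ W, w ≠ w' → 1 / T ≤ |w - w'|) →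
    ∑ w ∈ W, ‖G Γ w‖ ^ 2 ≤ K * (V / ℓ) * (T * ℓ) ^ 2

/-- [COL] collisions of multiples.  Proof: fix `v, v'` and let `(a, a')`, `(b, b')` be two solutions of
`|a v - a' v'| < 1 / T`.  Then `v (a b' - b a') = (a v - a' v') b' - (b v - b' v') a'` has modulus
`< 4 h / T`, so the integer `a b' - b a'` is `0`, as `v ≥ ℓ / h` and `4 h ^ 2 ≤ T ℓ`.  So all solutions are
`(κ p, κ q)` with one coprime pair `(p, q)`, and there are at most `2 h / max p q` of them.  If there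
is one, then `|v' - (p / q) v| < 1 / (h T)`, so, as the points are separated, for given `v` different `v'`
have different `(p, q)`.  Hence the number for given `v` is at most `∑ 2 h / max p q` over a set of at
most `k = #J` pairs of positive integers, and this is at most `2 h * 3 √k`: at most `2 t - 1`
pairs have maximum `t`; the pairs with maximum `≤ τ = ⌊√k⌋` contribute at most `2 τ`, the others at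
most `k / (τ + 1) ≤ √k`. -/
def S_COL : Prop := ∀ (T ℓ : ℝ) (h : ℕ) (J : Finset ℝ), 0 < T → 0 < ℓ → 1 ≤ h →
  4 * (h : ℝ) ^ 2 ≤ T * ℓ → (∀ v ∈ J, ℓ / h ≤ v) →
  (∀ v ∈ J, ∀ v' ∈ J, v ≠ v' → 2 / (h * T) ≤ |v - v'|) →
  ((((J ×ˢ J) ×ˢ (Finset.Ico h (2 * h) ×ˢ Finset.Ico h (2 * h))).filter
    (fun q : (ℝ × ℝ) × (ℕ × ℕ) => |(q.2.1 : ℝ) * q.1.1 - (q.2.2 : ℝ) * q.1.2| < 1 / T)).card : ℝ) ≤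
    6 * h * J.card * Real.sqrt J.card

/-- [LAY] layer cake.  `∑ b ^ m = ∫_0^B m λ^(m-1) #{i | λ ≤ b i} dλ`.
For (a) the integrand is at most `m D λ^(m-5)` and `∑ b ^ m ≤ B ^ (m - 5) ∑ b ^ 5`; for (b) split at
`B / M ^ (1/4)`; for (c) split at `√(D / Q)`. -/
def S_LAY : Prop := ∀ (ι : Type) (s : Finset ι) (b : ι → ℝ) (B D : ℝ), 0 ≤ B → 0 < D →
  (∀ i ∈ s, 0 ≤ b i ∧ b i ≤ B) →
  (∀ t : ℝ, 0 < t → ((s.filter (fun i => t ≤ b i)).card : ℝ) ≤ D / t ^ 4) →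
  (∀ m : ℕ, 5 ≤ m → ∑ i ∈ s, b i ^ m ≤ 5 * D * B ^ (m - 4)) ∧
  (∀ M : ℝ, 1 ≤ M → (s.card : ℝ) ≤ M → ∑ i ∈ s, b i ^ 4 ≤ B ^ 4 + D * Real.log M) ∧
  (∀ Q : ℝ, 0 < Q → ∑ i ∈ s, b i ^ 2 ≤ Q → ∑ i ∈ s, b i ^ 3 ≤ 6 * Real.sqrt (D * Q))

/-- [DIS] an integral is at most a sum over three separated sets.  Proof: cells
`[α + i δ, α + (i + 1) δ] ∩ [α, β]`, `i ≤ (β - α) / δ`; `v i` a maximum point of `f` in the cell;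
`J c` the `v i` with `i ≡ c mod 3`. -/
def S_DIS : Prop := ∀ (f : ℝ → ℝ) (α β δ : ℝ), Continuous f → (∀ v, 0 ≤ f v) → α ≤ β → 0 < δ →
  ∃ J : Fin 3 → Finset ℝ, (∀ c, ∀ v ∈ J c, α ≤ v ∧ v ≤ β) ∧
    (∀ c, ∀ v ∈ J c, ∀ v' ∈ J c, v ≠ v' → 2 * δ ≤ |v - v'|) ∧
    (∀ c, ((J c).card : ℝ) ≤ (β - α) / δ + 1) ∧
    ∫ v in α..β, f v ≤ δ * ∑ c, ∑ v ∈ J c, f v

/-- a dyadic block of multiples of the frequency -/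
noncomputable def Bh (Γ : Finset ℝ) (h : ℕ) (v : ℝ) : ℝ :=
  ∑ a ∈ Finset.Ico h (2 * h), ‖G Γ (a * v)‖

/-- [WEA] from LS and COL -/
def S_WEA : Prop := ∀ C : ℝ, 1 ≤ C → ∃ K : ℝ, 1 ≤ K ∧ ∀ (Γ : Finset ℝ) (T ℓ : ℝ), Dat Γ T ℓ C →
  ∀ (h : ℕ) (J : Finset ℝ) (t : ℝ), 1 ≤ h → 4 * (h : ℝ) ^ 2 ≤ T * ℓ → (∀ v ∈ J, ℓ / h ≤ v ∧ v ≤ ℓ) →
    (∀ v ∈ J, ∀ v' ∈ J, v ≠ v' → 2 / (h * T) ≤ |v - v'|) → 0 < t →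
    (∀ v ∈ J, t * (T * ℓ) ≤ Bh Γ h v) → (J.card : ℝ) ≤ K * h ^ 4 / t ^ 4

/-- [L2D] from LS -/
def S_L2D : Prop := ∀ C : ℝ, 1 ≤ C → ∃ K : ℝ, 1 ≤ K ∧ ∀ (Γ : Finset ℝ) (T ℓ : ℝ), Dat Γ T ℓ C →
  ∀ (h : ℕ) (J : Finset ℝ), 1 ≤ h → (∀ v ∈ J, 0 ≤ v ∧ v ≤ ℓ) →
    (∀ v ∈ J, ∀ v' ∈ J, v ≠ v' → 2 / (h * T) ≤ |v - v'|) →
    ∑ v ∈ J, Bh Γ h v ^ 2 ≤ K * h ^ 3 * (T * ℓ) ^ 2

/-- the bounds for the moments -/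
noncomputable def Th (m : ℕ) (H : ℝ) : ℝ :=
  if m ≤ 3 then H ^ 2 * (1 + Real.log H) ^ 6 else H ^ (m - 1)

/-- [MOM] moments of a dyadic block -/
def S_MOM : Prop := ∀ (C : ℝ) (m : ℕ), 1 ≤ C → 3 ≤ m → ∃ K : ℝ, 1 ≤ K ∧
  ∀ (Γ : Finset ℝ) (T ℓ : ℝ), Dat Γ T ℓ C → ∀ h : ℕ, 1 ≤ h → 16 * (h : ℝ) ^ 2 ≤ T * ℓ →
    ∫ v in (0 : ℝ)..ℓ, Bh Γ h v ^ m ≤ K * ℓ * Th m h * (T * ℓ) ^ (m - 1)

/-- [DYA] moments of all multiples -/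
def S_DYA : Prop := ∀ (C : ℝ) (m : ℕ), 1 ≤ C → 3 ≤ m → ∃ K : ℝ, 1 ≤ K ∧
  ∀ (Γ : Finset ℝ) (T ℓ : ℝ), Dat Γ T ℓ C → ∀ H : ℕ, 1 ≤ H → 16 * (H : ℝ) ^ 2 ≤ T * ℓ →
    ∫ v in (0 : ℝ)..ℓ, (∑ a ∈ Finset.Icc 1 H, ‖G Γ (a * v)‖) ^ m ≤
      K * ℓ * Th m H * (T * ℓ) ^ (m - 1)

/-- integer vectors with nonzero entries of modulus at most `H` -/
noncomputable def RR (m H : ℕ) : Finset (Fin m → ℤ) :=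
  Fintype.piFinset (fun _ => (Finset.Icc (-(H : ℤ)) H).erase 0)

/-- [SUM] the sum over the coefficients -/
def S_SUM : Prop := ∀ (C : ℝ) (m : ℕ), 1 ≤ C → 3 ≤ m → ∃ K : ℝ, 1 ≤ K ∧
  ∀ (Γ : Finset ℝ) (T ℓ : ℝ), Dat Γ T ℓ C → ∀ H : ℕ, 1 ≤ H → 16 * (H : ℝ) ^ 2 ≤ T * ℓ →
    ∀ y : (Fin m → ℤ) → ℝ, ∑ r ∈ RR m H, cnt Γ (fun i => (r i : ℝ)) (y r) (1 / ℓ) ≤
      K * Th m H * (T * ℓ) ^ (m - 1)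

end Pool.Agent.L7h52.LF
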