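import Pool.Agent.L7h52.LF.Dya

/-! Project LF: all coefficient vectors with at least two nonzero entries. -/

set_option autoImplicit false

open Finset MeasureTheory

namespace Pool.Agent.L7h52.LF

open Pool.Agent.L7h52.AR (G Dat cnt G_cont G_le msq G_abs s_cnt)

/-- integer vectors with entries of modulus at most `H`, at least two of them nonzero -/
noncomputable def RZ (m H : ℕ) : Finset (Fin m → ℤ) := by
  classical
  exact (Fintype.piFinset (fun _ => Finset.Icc (-(H : ℤ)) H)).filter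
    (fun r => ∃ i j, i ≠ j ∧ r i ≠ 0 ∧ r j ≠ 0)

lemma mem_RZ {m H : ℕ} {r : Fin m → ℤ} : r ∈ RZ m H ↔
    (∀ i, |r i| ≤ (H : ℤ)) ∧ ∃ i j, i ≠ j ∧ r i ≠ 0 ∧ r j ≠ 0 := by
  classical
  unfold RZ
  rw [mem_filter, Fintype.mem_piFinset]
  refine and_congr_left fun _ => forall_congr' fun i => ?_
  rw [Finset.mem_Icc, abs_le]

lemma prod_RZ (m H : ℕ) (g : ℤ → ℝ) (hg : ∀ a, 0 ≤ g a) :
    ∑ r ∈ RZ m H, ∏ i, g (r i) ≤ (m : ℝ) ^ 2 * ((∑ a ∈ (Finset.Icc (-(H : ℤ)) H).erase 0, g a) ^ 2 *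
      (g 0 + ∑ a ∈ (Finset.Icc (-(H : ℤ)) H).erase 0, g a) ^ (m - 2)) := by
  classical
  set E := (Finset.Icc (-(H : ℤ)) H).erase 0 with hE
  set b := ∑ a ∈ E, g a with hb
  have hb0 : 0 ≤ b := sum_nonneg fun a _ => hg a
  have hsum : ∑ a ∈ Finset.Icc (-(H : ℤ)) H, g a = g 0 + b := by
    rw [hb, hE, add_sum_erase]
    rw [Finset.mem_Icc]; omega
  have hp : ∀ r : Fin m → ℤ, 0 ≤ ∏ i, g (r i) := fun r => prod_nonneg fun i _ => hg _
  have h1 : ∀ r ∈ RZ m H, ∏ i, g (r i) ≤ ∑ p ∈ (univ : Finset (Fin m × Fin m)),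
      if p.1 ≠ p.2 ∧ r ∈ Fintype.piFinset (fun k => if k = p.1 ∨ k = p.2 then E else
        Finset.Icc (-(H : ℤ)) H) then ∏ i, g (r i) else 0 := by
    intro r hr
    obtain ⟨h2, i, j, hij, hi, hj⟩ := mem_RZ.1 hr
    refine le_trans (le_of_eq ?_) (single_le_sum (f := fun p : Fin m × Fin m =>
      if p.1 ≠ p.2 ∧ r ∈ Fintype.piFinset (fun k => if k = p.1 ∨ k = p.2 then E else
        Finset.Icc (-(H : ℤ)) H) then ∏ i, g (r i) else 0)
      (fun p _ => by split_ifs; exacts [hp r, le_rfl]) (mem_univ (i, j)))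
    rw [if_pos]
    refine ⟨hij, ?_⟩
    rw [Fintype.mem_piFinset]
    intro k
    have hk := abs_le.1 (h2 k)
    split_ifs with hk2
    · rw [hE, mem_erase, Finset.mem_Icc]
      refine ⟨?_, hk.1, hk.2⟩
      rcases hk2 with rfl | rfl
      · exact hi
      · exact hj
    · rw [Finset.mem_Icc]; exact hk
  have h3 : ∀ p : Fin m × Fin m, ∑ r ∈ RZ m H, (if p.1 ≠ p.2 ∧ r ∈ Fintype.piFinset
      (fun k => if k = p.1 ∨ k = p.2 then E else Finset.Icc (-(H : ℤ)) H) then ∏ i, g (r i) else 0) ≤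
      b ^ 2 * (g 0 + b) ^ (m - 2) := by
    intro p
    by_cases hne : p.1 ≠ p.2
    · rw [← sum_filter]
      have h4 : ∑ r ∈ (RZ m H).filter (fun r => p.1 ≠ p.2 ∧ r ∈ Fintype.piFinset
          (fun k => if k = p.1 ∨ k = p.2 then E else Finset.Icc (-(H : ℤ)) H)), ∏ i, g (r i) ≤
          ∑ r ∈ Fintype.piFinset
          (fun k => if k = p.1 ∨ k = p.2 then E else Finset.Icc (-(H : ℤ)) H), ∏ i, g (r i) := by
        refine sum_le_sum_of_subset_of_nonneg ?_ fun r _ _ => hp r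
        intro r hr
        exact (mem_filter.1 hr).2.2
      refine h4.trans (le_of_eq ?_)
      rw [← prod_univ_sum (fun k : Fin m => if k = p.1 ∨ k = p.2 then E else Finset.Icc (-(H : ℤ)) H)
        (fun _ a => g a)]
      have h5 : ∀ k : Fin m, ∑ a ∈ (if k = p.1 ∨ k = p.2 then E else Finset.Icc (-(H : ℤ)) H), g a =
          if k = p.1 ∨ k = p.2 then b else g 0 + b := by
        intro k
        split_ifs
        · rfl
        · exact hsum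
      simp only [h5]
      rw [prod_ite, prod_const, prod_const]
      have h6 : (univ.filter (fun k : Fin m => k = p.1 ∨ k = p.2)) = {p.1, p.2} := by
        ext k; simp
      have h7 : (univ.filter (fun k : Fin m => ¬ (k = p.1 ∨ k = p.2))) = univ \ {p.1, p.2} := by
        ext k; simp
      rw [h7, h6, card_sdiff_of_subset (subset_univ _), card_pair hne, card_univ, Fintype.card_fin]
    · have h4 : ∀ r : Fin m → ℤ, ¬ (p.1 ≠ p.2 ∧ r ∈ Fintype.piFinset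
          (fun k => if k = p.1 ∨ k = p.2 then E else Finset.Icc (-(H : ℤ)) H)) :=
        fun r h => hne h.1
      simp only [h4, if_false, sum_const_zero]
      have := hg 0
      positivity
  calc ∑ r ∈ RZ m H, ∏ i, g (r i) ≤ ∑ r ∈ RZ m H, ∑ p ∈ (univ : Finset (Fin m × Fin m)),
      (if p.1 ≠ p.2 ∧ r ∈ Fintype.piFinset (fun k => if k = p.1 ∨ k = p.2 then E else
        Finset.Icc (-(H : ℤ)) H) then ∏ i, g (r i) else 0) := sum_le_sum h1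
    _ = ∑ p ∈ (univ : Finset (Fin m × Fin m)), ∑ r ∈ RZ m H,
      (if p.1 ≠ p.2 ∧ r ∈ Fintype.piFinset (fun k => if k = p.1 ∨ k = p.2 then E else
        Finset.Icc (-(H : ℤ)) H) then ∏ i, g (r i) else 0) := sum_comm
    _ ≤ ∑ p ∈ (univ : Finset (Fin m × Fin m)), b ^ 2 * (g 0 + b) ^ (m - 2) :=
        sum_le_sum fun p _ => h3 p
    _ = (m : ℝ) ^ 2 * (b ^ 2 * (g 0 + b) ^ (m - 2)) := by
        rw [sum_const, card_univ, Fintype.card_prod, Fintype.card_fin, nsmul_eq_mul]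
        push_cast
        ring

lemma sq_le_Th (m : ℕ) (H : ℝ) (hH : 1 ≤ H) : H ^ 2 ≤ Th m H := by
  unfold Th
  have hl := Real.log_nonneg hH
  split_ifs with h1
  · have h3 : 1 ≤ (1 + Real.log H) ^ 6 := one_le_pow₀ (by linarith)
    exact le_mul_of_one_le_right (by positivity) h3
  · exact pow_le_pow_right₀ hH (by omega)

/-- the sum over all coefficient vectors with at least two nonzero entries -/
theorem s_all (dya : S_DYA) (C : ℝ) (m : ℕ) (hC : 1 ≤ C) (hm : 3 ≤ m) : ∃ K : ℝ, 1 ≤ K ∧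
    ∀ (Γ : Finset ℝ) (T ℓ : ℝ), Dat Γ T ℓ C → ∀ H : ℕ, 1 ≤ H → 16 * (H : ℝ) ^ 2 ≤ T * ℓ →
    ∀ y : (Fin m → ℤ) → ℝ, ∑ r ∈ RZ m H, cnt Γ (fun i => (r i : ℝ)) (y r) (1 / ℓ) ≤
      K * Th m H * (T * ℓ) ^ (m - 1) := by
  classical
  obtain ⟨K, hK, h1⟩ := dya C m hC hm
  refine ⟨4 * ((m : ℝ) ^ 2 * 2 ^ (m - 2) * (C ^ (m - 2) * 4 * (44 * C) + 2 ^ m * K)), ?_, ?_⟩
  · have a1 : (1 : ℝ) ≤ 2 ^ m := one_le_pow₀ (by norm_num)
    have a2 : (1 : ℝ) ≤ 2 ^ (m - 2) := one_le_pow₀ (by norm_num)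
    have a3 : (1 : ℝ) ≤ C ^ (m - 2) := one_le_pow₀ hC
    have a4 : (1 : ℝ) ≤ (m : ℝ) ^ 2 := one_le_pow₀ (by exact_mod_cast (by omega : 1 ≤ m))
    have a5 : (1 : ℝ) ≤ (m : ℝ) ^ 2 * 2 ^ (m - 2) := by nlinarith
    have a6 : (1 : ℝ) ≤ 2 ^ m * K := by nlinarith
    have a7 : (0 : ℝ) ≤ C ^ (m - 2) * 4 * (44 * C) := by positivity
    nlinarith
  intro Γ T ℓ hD H hH hHN y
  have hpi := Real.pi_pos
  have hl0 : 0 < ℓ := by linarith [hD.hl]
  have hT0 : 0 < T := by linarith [hD.hT]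
  have hN0 : 0 < T * ℓ := by positivity
  have hN1 : 1 ≤ T * ℓ := by nlinarith [hD.hl, hD.hT]
  have h2 := h1 Γ T ℓ hD H hH hHN
  have hE0 : 0 < ℓ / (2 * Real.pi) := by positivity
  have hw : 1 / (2 * Real.pi * (ℓ / (2 * Real.pi))) = 1 / ℓ := by field_simp
  have hc : ∀ r : Fin m → ℤ, cnt Γ (fun i => (r i : ℝ)) (y r) (1 / ℓ) * (ℓ / (2 * Real.pi)) ≤
      2 * ∫ u in (-(ℓ / (2 * Real.pi)))..(ℓ / (2 * Real.pi)),
        ∏ i, ‖G Γ (2 * Real.pi * (r i : ℝ) * u)‖ := by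
    intro r
    have := s_cnt Γ m (fun i => (r i : ℝ)) (y r) (ℓ / (2 * Real.pi)) hE0
    rwa [hw] at this
  have hcont : ∀ r : Fin m → ℤ, Continuous (fun u : ℝ => ∏ i, ‖G Γ (2 * Real.pi * (r i : ℝ) * u)‖) := by
    intro r
    have := G_cont Γ
    exact continuous_finsetProd _ fun i _ => by fun_prop
  have hbc := Bf_cont Γ H
  set P : ℝ := (C * (T * ℓ)) ^ (m - 2) with hP
  set c₀ : ℝ := (m : ℝ) ^ 2 * 2 ^ (m - 2) with hc₀
  have hP0 : 0 ≤ P := by rw [hP]; positivity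
  have hc00 : 0 ≤ c₀ := by rw [hc₀]; positivity
  have hpt : ∀ u : ℝ, ∑ r ∈ RZ m H, ∏ i, ‖G Γ (2 * Real.pi * (r i : ℝ) * u)‖ ≤
      c₀ * (P * (2 * Bf Γ H (2 * Real.pi * u)) ^ 2 + (2 * Bf Γ H (2 * Real.pi * u)) ^ m) := by
    intro u
    have e1 := prod_RZ m H (fun a => ‖G Γ ((a : ℝ) * (2 * Real.pi * u))‖) (fun a => norm_nonneg _)
    rw [sum_pm] at e1
    have e2 : ∑ r ∈ RZ m H, ∏ i, ‖G Γ (2 * Real.pi * (r i : ℝ) * u)‖ =
        ∑ r ∈ RZ m H, ∏ i, ‖G Γ ((r i : ℝ) * (2 * Real.pi * u))‖ := by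
      refine sum_congr rfl fun r _ => prod_congr rfl fun i _ => ?_
      congr 2
      ring
    rw [e2]
    refine e1.trans ?_
    set B := 2 * Bf Γ H (2 * Real.pi * u) with hB
    have hB0 : 0 ≤ B := by
      have := Bf_nonneg Γ H (2 * Real.pi * u)
      rw [hB]; positivity
    have e3 : ‖G Γ (((0 : ℤ) : ℝ) * (2 * Real.pi * u))‖ ≤ C * (T * ℓ) := (G_le Γ _).trans hD.up
    have e4 : (‖G Γ (((0 : ℤ) : ℝ) * (2 * Real.pi * u))‖ + B) ^ (m - 2) ≤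
        2 ^ (m - 2) * (P + B ^ (m - 2)) := by
      have f1 : (‖G Γ (((0 : ℤ) : ℝ) * (2 * Real.pi * u))‖ + B) ^ (m - 2) ≤
          (C * (T * ℓ) + B) ^ (m - 2) := by gcongr
      have f2 := add_pow_le (show 0 ≤ C * (T * ℓ) by positivity) hB0 (m - 2)
      refine f1.trans (f2.trans ?_)
      have f3 : (2 : ℝ) ^ (m - 2 - 1) ≤ 2 ^ (m - 2) := pow_le_pow_right₀ (by norm_num) (by omega)
      rw [hP]
      gcongr
    have e5 : B ^ m = B ^ 2 * B ^ (m - 2) := by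
      rw [← pow_add]; congr 1; omega
    calc (m : ℝ) ^ 2 * (B ^ 2 * (‖G Γ (((0 : ℤ) : ℝ) * (2 * Real.pi * u))‖ + B) ^ (m - 2)) ≤
        (m : ℝ) ^ 2 * (B ^ 2 * (2 ^ (m - 2) * (P + B ^ (m - 2)))) := by gcongr
      _ = c₀ * (P * B ^ 2 + B ^ m) := by rw [e5, hc₀]; ring
  have hsum : (∑ r ∈ RZ m H, cnt Γ (fun i => (r i : ℝ)) (y r) (1 / ℓ)) * (ℓ / (2 * Real.pi)) ≤
      2 * ∫ u in (-(ℓ / (2 * Real.pi)))..(ℓ / (2 * Real.pi)),
        (c₀ * (P * (2 * Bf Γ H (2 * Real.pi * u)) ^ 2 + (2 * Bf Γ H (2 * Real.pi * u)) ^ m)) := by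
    rw [sum_mul]
    refine (sum_le_sum fun r _ => hc r).trans ?_
    rw [← mul_sum, ← intervalIntegral.integral_finsetSum
      (fun r _ => (hcont r).intervalIntegrable _ _)]
    refine mul_le_mul_of_nonneg_left ?_ (by norm_num)
    apply intervalIntegral.integral_mono_on (by linarith)
    · exact (continuous_finsetSum _ fun r _ => hcont r).intervalIntegrable _ _
    · have : Continuous (fun u : ℝ => c₀ * (P * (2 * Bf Γ H (2 * Real.pi * u)) ^ 2 +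
        (2 * Bf Γ H (2 * Real.pi * u)) ^ m)) := by fun_prop
      exact this.intervalIntegrable _ _
    · intro u _
      exact hpt u
  have hce : Continuous (fun v : ℝ => c₀ * (P * (2 * Bf Γ H v) ^ 2 + (2 * Bf Γ H v) ^ m)) := by
    fun_prop
  rw [even_int (fun v => c₀ * (P * (2 * Bf Γ H v) ^ 2 + (2 * Bf Γ H v) ^ m)) hce
    (fun v => by simp only [Bf_neg])] at hsum
  have hi1 : Continuous (fun v : ℝ => P * (2 * Bf Γ H v) ^ 2) := by fun_prop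
  have hi2 : Continuous (fun v : ℝ => (2 * Bf Γ H v) ^ m) := by fun_prop
  have hadd : ∫ v in (0 : ℝ)..ℓ, (c₀ * (P * (2 * Bf Γ H v) ^ 2 + (2 * Bf Γ H v) ^ m)) =
      c₀ * (P * (4 * ∫ v in (0 : ℝ)..ℓ, Bf Γ H v ^ 2) + 2 ^ m * ∫ v in (0 : ℝ)..ℓ, Bf Γ H v ^ m) := by
    rw [intervalIntegral.integral_const_mul, intervalIntegral.integral_add
      (hi1.intervalIntegrable _ _) (hi2.intervalIntegrable _ _)]
    simp only [mul_pow]
    rw [intervalIntegral.integral_const_mul, intervalIntegral.integral_const_mul,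
      intervalIntegral.integral_const_mul]
    norm_num
  rw [hadd] at hsum
  have g1 := Bf_two hD H
  have g2 : ∫ v in (0 : ℝ)..ℓ, Bf Γ H v ^ m ≤ K * ℓ * Th m H * (T * ℓ) ^ (m - 1) := h2
  have hH1 : (1 : ℝ) ≤ H := by exact_mod_cast hH
  have g3 := sq_le_Th m H hH1
  have hth0 := Th_nonneg m (H : ℝ) hH1
  set Θ := Th m (H : ℝ) with hΘ
  have hPN : P * (T * ℓ) = C ^ (m - 2) * (T * ℓ) ^ (m - 1) := by
    rw [hP, mul_pow, mul_assoc, ← pow_succ]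
    congr 2
    omega
  have g4 : P * (4 * ∫ v in (0 : ℝ)..ℓ, Bf Γ H v ^ 2) ≤
      C ^ (m - 2) * 4 * (44 * C) * ℓ * Θ * (T * ℓ) ^ (m - 1) := by
    calc P * (4 * ∫ v in (0 : ℝ)..ℓ, Bf Γ H v ^ 2) ≤ P * (4 * (44 * C * ℓ * H ^ 2 * (T * ℓ))) := by
          gcongr
      _ = 4 * (44 * C) * ℓ * (H : ℝ) ^ 2 * (P * (T * ℓ)) := by ring
      _ = C ^ (m - 2) * 4 * (44 * C) * ℓ * (H : ℝ) ^ 2 * (T * ℓ) ^ (m - 1) := by rw [hPN]; ring
      _ ≤ C ^ (m - 2) * 4 * (44 * C) * ℓ * Θ * (T * ℓ) ^ (m - 1) := by gcongr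
  have h3 : (∑ r ∈ RZ m H, cnt Γ (fun i => (r i : ℝ)) (y r) (1 / ℓ)) * (ℓ / (2 * Real.pi)) ≤
      (4 * (c₀ * (C ^ (m - 2) * 4 * (44 * C) + 2 ^ m * K)) * Θ * (T * ℓ) ^ (m - 1)) *
        (ℓ / (2 * Real.pi)) := by
    refine hsum.trans ?_
    have e2 : 2 * (1 / Real.pi * (c₀ * (P * (4 * ∫ v in (0 : ℝ)..ℓ, Bf Γ H v ^ 2) +
        2 ^ m * ∫ v in (0 : ℝ)..ℓ, Bf Γ H v ^ m))) ≤
        2 * (1 / Real.pi * (c₀ * (C ^ (m - 2) * 4 * (44 * C) * ℓ * Θ * (T * ℓ) ^ (m - 1) +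
          2 ^ m * (K * ℓ * Θ * (T * ℓ) ^ (m - 1))))) := by
      gcongr
    refine e2.trans (le_of_eq ?_)
    field_simp
    ring
  exact le_of_mul_le_mul_right h3 hE0

end Pool.Agent.L7h52.LF
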