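import Pool.Agent.L7h52.LF.Stm3

/-! Project LF: walks of length three. -/

set_option autoImplicit false

open Finset MeasureTheory

namespace Pool.Agent.L7h52.LF

lemma am3 (a b : ℝ) (ha : 0 < a) (hb : 0 < b) : 3 ≤ a * b + 1 / a + 1 / b := by
  obtain ⟨u, hu, rfl⟩ : ∃ u : ℝ, 0 < u ∧ a = u * u :=
    ⟨Real.sqrt a, Real.sqrt_pos.2 ha, (Real.mul_self_sqrt ha.le).symm⟩
  obtain ⟨w, hw, rfl⟩ : ∃ w : ℝ, 0 < w ∧ b = w * w :=
    ⟨Real.sqrt b, Real.sqrt_pos.2 hb, (Real.mul_self_sqrt hb.le).symm⟩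
  have h0 : 0 < (u * w) := mul_pos hu hw
  have h1 : 0 ≤ (u - w) ^ 2 + (u * w) * (u * w - 1) ^ 2 * (u * w + 2) := by positivity
  have h2 : u * u * (w * w) + 1 / (u * u) + 1 / (w * w) - 3 =
      ((u - w) ^ 2 + (u * w) * (u * w - 1) ^ 2 * (u * w + 2)) / (u * u * (w * w)) := by
    field_simp
    ring
  have h3 : 0 ≤ u * u * (w * w) + 1 / (u * u) + 1 / (w * w) - 3 := by
    rw [h2]; positivity
  linarith

theorem s_br : S_BR := by
  intro J k hk hsym
  obtain ⟨d, hd⟩ : ∃ d : ℝ → ℝ, d = fun v => ∑ v' ∈ J, k v v' := ⟨_, rfl⟩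
  have hd0 : ∀ v, 0 ≤ d v := fun v => by rw [hd]; exact sum_nonneg fun v' _ => hk v v'
  obtain ⟨S, hS⟩ : ∃ S : ℝ, S = ∑ v ∈ J, ∑ v' ∈ J, k v v' := ⟨_, rfl⟩
  obtain ⟨P, hP⟩ : ∃ P : ℝ, P = ∑ v₀ ∈ J, ∑ v₁ ∈ J, ∑ v₂ ∈ J, ∑ v₃ ∈ J,
    k v₀ v₁ * k v₁ v₂ * k v₂ v₃ := ⟨_, rfl⟩
  have hP' : P = ∑ v₁ ∈ J, ∑ v₂ ∈ J, d v₁ * k v₁ v₂ * d v₂ := by
    rw [hP, sum_comm]
    refine sum_congr rfl fun v₁ _ => ?_
    rw [sum_comm]
    refine sum_congr rfl fun v₂ _ => ?_
    rw [hd]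
    simp only
    rw [sum_mul, sum_mul]
    refine sum_congr rfl fun v₀ _ => ?_
    rw [mul_sum]
    refine sum_congr rfl fun v₃ _ => ?_
    rw [hsym v₀ v₁]
  have hS0 : 0 ≤ S := by rw [hS]; exact sum_nonneg fun v _ => sum_nonneg fun v' _ => hk v v'
  have hP0 : 0 ≤ P := by
    rw [hP']
    exact sum_nonneg fun v _ => sum_nonneg fun v' _ =>
      mul_nonneg (mul_nonneg (hd0 v) (hk v v')) (hd0 v')
  rw [← hS, ← hP]
  rcases hS0.eq_or_lt with h0 | hSp
  · rw [← h0]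
    have : 0 ≤ (J.card : ℝ) ^ 2 * P := by positivity
    simpa using this
  have hn : 0 < (J.card : ℝ) := by
    rcases Nat.eq_zero_or_pos J.card with h | h
    · rw [Finset.card_eq_zero] at h
      rw [hS, h, sum_empty] at hSp
      exact absurd hSp (lt_irrefl _)
    · exact_mod_cast h
  obtain ⟨α, hα⟩ : ∃ α : ℝ, α = S / J.card := ⟨_, rfl⟩
  have hα0 : 0 < α := by rw [hα]; positivity
  have hpt : ∀ v ∈ J, ∀ v' ∈ J, 3 * k v v' ≤ d v * k v v' * d v' / α ^ 2 + α * (k v v' / d v) +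
      α * (k v v' / d v') := by
    intro v hv v' hv'
    rcases (hk v v').eq_or_lt with h | h
    · rw [← h]; simp
    have h1 : 0 < d v := by
      refine lt_of_lt_of_le h ?_
      rw [hd]
      exact single_le_sum (f := fun v' => k v v') (fun v' _ => hk v v') hv'
    have h2 : 0 < d v' := by
      refine lt_of_lt_of_le h ?_
      rw [hd, hsym]
      exact single_le_sum (f := fun v => k v' v) (fun v _ => hk v' v) hv
    have h3 := am3 (d v / α) (d v' / α) (by positivity) (by positivity)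
    have h4 : k v v' * 3 ≤ k v v' * (d v / α * (d v' / α) + 1 / (d v / α) + 1 / (d v' / α)) := by
      gcongr
    have h5 : k v v' * (d v / α * (d v' / α) + 1 / (d v / α) + 1 / (d v' / α)) =
        d v * k v v' * d v' / α ^ 2 + α * (k v v' / d v) + α * (k v v' / d v') := by
      field_simp
    rw [← h5]
    linarith
  have hone : ∀ v, d v / d v ≤ 1 := fun v => div_self_le_one _
  have h3S : 3 * S ≤ P / α ^ 2 + 2 * α * J.card := by
    have e1 : 3 * S ≤ ∑ v ∈ J, ∑ v' ∈ J, (d v * k v v' * d v' / α ^ 2 + α * (k v v' / d v) +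
        α * (k v v' / d v')) := by
      rw [hS, mul_sum]
      refine sum_le_sum fun v hv => ?_
      rw [mul_sum]
      exact sum_le_sum fun v' hv' => hpt v hv v' hv'
    have e2 : ∑ v ∈ J, ∑ v' ∈ J, (d v * k v v' * d v' / α ^ 2 + α * (k v v' / d v) +
        α * (k v v' / d v')) = P / α ^ 2 + α * ∑ v ∈ J, d v / d v + α * ∑ v ∈ J, d v / d v := by
      have f1 : P / α ^ 2 = ∑ v ∈ J, ∑ v' ∈ J, d v * k v v' * d v' / α ^ 2 := by
        rw [hP', sum_div]
        exact sum_congr rfl fun v _ => by rw [sum_div]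
      have f2 : ∑ v ∈ J, ∑ v' ∈ J, α * (k v v' / d v) = α * ∑ v ∈ J, d v / d v := by
        rw [mul_sum]
        refine sum_congr rfl fun v _ => ?_
        rw [← mul_sum, ← sum_div]
        congr 2
        rw [hd]
      have f3 : ∑ v ∈ J, ∑ v' ∈ J, α * (k v v' / d v') = α * ∑ v ∈ J, d v / d v := by
        rw [sum_comm, mul_sum]
        refine sum_congr rfl fun v _ => ?_
        rw [← mul_sum, ← sum_div]
        congr 2
        rw [hd]
        exact sum_congr rfl fun v' _ => hsym v' v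
      simp only [sum_add_distrib]
      rw [f1, f2, f3]
    have e3 : ∑ v ∈ J, d v / d v ≤ J.card := by
      calc ∑ v ∈ J, d v / d v ≤ ∑ _v ∈ J, (1 : ℝ) := sum_le_sum fun v _ => hone v
        _ = J.card := by simp
    rw [e2] at e1
    have e4 : α * ∑ v ∈ J, d v / d v ≤ α * J.card := by gcongr
    linarith
  have h6 : 2 * α * J.card = 2 * S := by rw [hα]; field_simp
  rw [h6] at h3S
  have h7 : S ≤ P / α ^ 2 := by linarith
  have h8 : P / α ^ 2 = (J.card : ℝ) ^ 2 * P / S ^ 2 := by rw [hα]; field_simp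
  rw [h8, le_div_iff₀ (by positivity)] at h7
  calc S ^ 3 = S * S ^ 2 := by ring
    _ ≤ (J.card : ℝ) ^ 2 * P := h7

end Pool.Agent.L7h52.LF
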