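import Pool.Agent.L7h52.LF.Mom

/-! Project LF: moments of all multiples, the sum over the coefficients. -/

set_option autoImplicit false

open Finset MeasureTheory

namespace Pool.Agent.L7h52.LF

open Pool.Agent.L7h52.AR (G Dat cnt G_cont G_le msq G_abs s_cnt)

/-- all multiples -/
noncomputable def Bf (Γ : Finset ℝ) (H : ℕ) (v : ℝ) : ℝ := ∑ a ∈ Finset.Icc 1 H, ‖G Γ (a * v)‖

lemma Bf_cont (Γ : Finset ℝ) (h : ℕ) : Continuous (Bf Γ h) := by
  unfold Bf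
  refine continuous_finsetSum _ fun a _ => ?_
  have := G_cont Γ
  fun_prop

lemma Bf_nonneg (Γ : Finset ℝ) (h : ℕ) (v : ℝ) : 0 ≤ Bf Γ h v :=
  sum_nonneg fun _ _ => norm_nonneg _

/-- the sum of the dyadic blocks -/
noncomputable def Sd (Γ : Finset ℝ) (I : ℕ) (v : ℝ) : ℝ := ∑ i ∈ Finset.range (I + 1), Bh Γ (2 ^ i) v

lemma Sd_cont (Γ : Finset ℝ) (I : ℕ) : Continuous (Sd Γ I) :=
  continuous_finsetSum _ fun i _ => Bh_cont Γ (2 ^ i)

lemma Sd_nonneg (Γ : Finset ℝ) (I : ℕ) (v : ℝ) : 0 ≤ Sd Γ I v :=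
  sum_nonneg fun i _ => Bh_nonneg Γ (2 ^ i) v

lemma Sd_succ (Γ : Finset ℝ) (I : ℕ) (v : ℝ) : Sd Γ (I + 1) v = Sd Γ I v + Bh Γ (2 ^ (I + 1)) v := by
  unfold Sd
  rw [sum_range_succ]

lemma Bf_le (Γ : Finset ℝ) (H : ℕ) (v : ℝ) : Bf Γ H v ≤ Sd Γ (Nat.log 2 H) v := by
  unfold Bf Sd Bh
  have h1 : ∀ a ∈ Finset.Icc 1 H, ‖G Γ (a * v)‖ ≤ ∑ i ∈ Finset.range (Nat.log 2 H + 1),
      (if a ∈ Finset.Ico (2 ^ i) (2 * 2 ^ i) then ‖G Γ (a * v)‖ else 0) := by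
    intro a ha
    rw [Finset.mem_Icc] at ha
    have ha0 : a ≠ 0 := by omega
    have h2 : Nat.log 2 a ∈ Finset.range (Nat.log 2 H + 1) := by
      rw [Finset.mem_range]
      have := Nat.log_mono_right (b := 2) ha.2
      omega
    have h3 := single_le_sum (f := fun i => (if a ∈ Finset.Ico (2 ^ i) (2 * 2 ^ i) then
      ‖G Γ (a * v)‖ else 0)) (fun i _ => by split_ifs <;> positivity) h2
    refine le_trans (le_of_eq ?_) h3
    rw [if_pos]
    rw [Finset.mem_Ico]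
    refine ⟨Nat.pow_log_le_self 2 ha0, ?_⟩
    have := Nat.lt_pow_succ_log_self (b := 2) (by norm_num) a
    rw [pow_succ] at this
    omega
  refine (sum_le_sum h1).trans ?_
  rw [sum_comm]
  refine sum_le_sum fun i _ => ?_
  rw [← sum_filter]
  refine sum_le_sum_of_subset_of_nonneg ?_ fun _ _ _ => norm_nonneg _
  intro a ha
  exact (mem_filter.1 ha).2

/-- two-term convexity -/
lemma two_term (x y : ℝ) (m : ℕ) (hm : 1 ≤ m) (hx : 0 ≤ x) (hy : 0 ≤ y) :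
    (x + y) ^ m ≤ (4 / 3) ^ (m - 1) * x ^ m + 4 ^ (m - 1) * y ^ m := by
  have h := (convexOn_pow m).2 (show (4 / 3 * x) ∈ Set.Ici (0 : ℝ) by
    show 0 ≤ 4 / 3 * x; positivity) (show (4 * y) ∈ Set.Ici (0 : ℝ) by
    show 0 ≤ 4 * y; positivity) (show (0 : ℝ) ≤ 3 / 4 by norm_num)
    (show (0 : ℝ) ≤ 1 / 4 by norm_num) (by norm_num)
  simp only [smul_eq_mul] at h
  have e1 : (3 / 4 * (4 / 3 * x) + 1 / 4 * (4 * y)) = x + y := by ring
  rw [e1] at h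
  refine h.trans (le_of_eq ?_)
  obtain ⟨j, rfl⟩ : ∃ j, m = j + 1 := ⟨m - 1, by omega⟩
  rw [show j + 1 - 1 = j by omega, mul_pow, mul_pow, pow_succ (4 / 3 : ℝ), pow_succ (4 : ℝ)]
  ring

lemma Th_half (m : ℕ) (I : ℕ) (hm : 3 ≤ m) :
    Th m ((2 ^ I : ℕ) : ℝ) ≤ (1 / 2) ^ (m - 1) * Th m ((2 ^ (I + 1) : ℕ) : ℝ) := by
  push_cast
  unfold Th
  have hp : (0 : ℝ) < 2 ^ I := by positivity
  split_ifs with h1
  · have : m = 3 := by omega
    subst this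
    have h2 : Real.log ((2 : ℝ) ^ I) ≤ Real.log ((2 : ℝ) ^ (I + 1)) :=
      Real.log_le_log hp (pow_le_pow_right₀ (by norm_num) (by omega))
    have h3 : 0 ≤ Real.log ((2 : ℝ) ^ I) := Real.log_nonneg (one_le_pow₀ (by norm_num))
    have h4 : (1 + Real.log ((2 : ℝ) ^ I)) ^ 6 ≤ (1 + Real.log ((2 : ℝ) ^ (I + 1))) ^ 6 := by gcongr
    calc ((2 : ℝ) ^ I) ^ 2 * (1 + Real.log ((2 : ℝ) ^ I)) ^ 6 ≤
        ((2 : ℝ) ^ I) ^ 2 * (1 + Real.log ((2 : ℝ) ^ (I + 1))) ^ 6 := by gcongr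
      _ = (1 / 2) ^ (3 - 1) * (((2 : ℝ) ^ (I + 1)) ^ 2 * (1 + Real.log ((2 : ℝ) ^ (I + 1))) ^ 6) := by
        rw [show (3 - 1 : ℕ) = 2 by norm_num, pow_succ (2 : ℝ) I]
        ring
  · rw [pow_succ (2 : ℝ) I, mul_pow]
    apply le_of_eq
    rw [mul_comm ((2 ^ I : ℝ) ^ (m - 1)), ← mul_assoc, ← mul_pow]
    norm_num

lemma Th_mono (m : ℕ) (x y : ℝ) (hx : 1 ≤ x) (hxy : x ≤ y) : Th m x ≤ Th m y := by
  unfold Th
  have h0 := Real.log_nonneg hx
  have h1 : Real.log x ≤ Real.log y := Real.log_le_log (by linarith) hxy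
  split_ifs <;> gcongr

lemma Th_nonneg (m : ℕ) (x : ℝ) (hx : 1 ≤ x) : 0 ≤ Th m x := by
  unfold Th
  have := Real.log_nonneg hx
  split_ifs <;> positivity

theorem s_dya (mom : S_MOM) : S_DYA := by
  intro C m hC hm
  obtain ⟨K, hK, h1⟩ := mom C m hC hm
  have hK0 : 0 < K := by linarith
  refine ⟨2 * 4 ^ (m - 1) * K, ?_, ?_⟩
  · have : (1 : ℝ) ≤ 4 ^ (m - 1) := one_le_pow₀ (by norm_num)
    nlinarith
  intro Γ T ℓ hD H hH hHN
  have hl0 : 0 < ℓ := by linarith [hD.hl]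
  have hT0 : 0 < T := by linarith [hD.hT]
  have hN0 : 0 < T * ℓ := by positivity
  have hN1 : 1 ≤ T * ℓ := by nlinarith [hD.hl, hD.hT]
  have hind : ∀ I : ℕ, 16 * (((2 ^ I : ℕ) : ℝ)) ^ 2 ≤ T * ℓ →
      ∫ v in (0 : ℝ)..ℓ, Sd Γ I v ^ m ≤ 2 * 4 ^ (m - 1) * K * ℓ * Th m ((2 ^ I : ℕ) : ℝ) *
        (T * ℓ) ^ (m - 1) := by
    intro I
    induction I with
    | zero =>
      intro hI
      have h2 := h1 Γ T ℓ hD 1 le_rfl (by simpa using hI)
      have h3 : ∀ v, Sd Γ 0 v = Bh Γ 1 v := fun v => by unfold Sd; simp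
      simp only [h3]
      refine h2.trans ?_
      have h4 := Th_nonneg m ((1 : ℕ) : ℝ) (by norm_num)
      have h5 : K ≤ 2 * 4 ^ (m - 1) * K := by
        have : (1 : ℝ) ≤ 4 ^ (m - 1) := one_le_pow₀ (by norm_num)
        nlinarith
      rw [pow_zero]
      gcongr
    | succ I ih =>
      intro hI
      have hI' : 16 * (((2 ^ I : ℕ) : ℝ)) ^ 2 ≤ T * ℓ := by
        refine le_trans ?_ hI
        have : ((2 ^ I : ℕ) : ℝ) ≤ ((2 ^ (I + 1) : ℕ) : ℝ) := by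
          push_cast
          exact pow_le_pow_right₀ (by norm_num) (by omega)
        gcongr
      have h2 := ih hI'
      have h3 := h1 Γ T ℓ hD (2 ^ (I + 1)) Nat.one_le_two_pow hI
      have h4 : ∫ v in (0 : ℝ)..ℓ, Sd Γ (I + 1) v ^ m ≤
          ∫ v in (0 : ℝ)..ℓ, ((4 / 3) ^ (m - 1) * Sd Γ I v ^ m + 4 ^ (m - 1) * Bh Γ (2 ^ (I + 1)) v ^ m) := by
        apply intervalIntegral.integral_mono_on hl0.le
        · exact ((Sd_cont Γ (I + 1)).pow m).intervalIntegrable _ _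
        · exact ((continuous_const.mul ((Sd_cont Γ I).pow m)).add
            (continuous_const.mul ((Bh_cont Γ _).pow m))).intervalIntegrable _ _
        · intro v _
          rw [Sd_succ]
          exact two_term _ _ m (by omega) (Sd_nonneg Γ I v) (Bh_nonneg Γ _ v)
      have hcs := Sd_cont Γ I
      have hcb := Bh_cont Γ (2 ^ (I + 1))
      have hc1 : Continuous (fun v : ℝ => (4 / 3 : ℝ) ^ (m - 1) * Sd Γ I v ^ m) := by fun_prop
      have hc2 : Continuous (fun v : ℝ => (4 : ℝ) ^ (m - 1) * Bh Γ (2 ^ (I + 1)) v ^ m) := by fun_prop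
      have hadd : ∫ v in (0 : ℝ)..ℓ, ((4 / 3 : ℝ) ^ (m - 1) * Sd Γ I v ^ m +
          4 ^ (m - 1) * Bh Γ (2 ^ (I + 1)) v ^ m) =
          (4 / 3 : ℝ) ^ (m - 1) * (∫ v in (0 : ℝ)..ℓ, Sd Γ I v ^ m) +
          4 ^ (m - 1) * ∫ v in (0 : ℝ)..ℓ, Bh Γ (2 ^ (I + 1)) v ^ m := by
        rw [intervalIntegral.integral_add (hc1.intervalIntegrable _ _) (hc2.intervalIntegrable _ _),
          intervalIntegral.integral_const_mul, intervalIntegral.integral_const_mul]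
      rw [hadd] at h4
      refine h4.trans ?_
      have hth := Th_half m I hm
      have hth0 := Th_nonneg m ((2 ^ (I + 1) : ℕ) : ℝ) (by exact_mod_cast Nat.one_le_two_pow)
      have h5 : (4 / 3 : ℝ) ^ (m - 1) * (1 / 2) ^ (m - 1) ≤ 1 / 2 := by
        rw [← mul_pow]
        have : (4 / 3 * (1 / 2) : ℝ) ^ (m - 1) ≤ (4 / 3 * (1 / 2)) ^ 2 :=
          pow_le_pow_of_le_one (by norm_num) (by norm_num) (by omega)
        refine this.trans (by norm_num)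
      set Θ := Th m ((2 ^ (I + 1) : ℕ) : ℝ) with hΘ
      set P := (T * ℓ) ^ (m - 1) with hP
      have hP0 : 0 < P := by rw [hP]; positivity
      have h6 : (4 / 3 : ℝ) ^ (m - 1) * ∫ v in (0 : ℝ)..ℓ, Sd Γ I v ^ m ≤
          4 ^ (m - 1) * K * ℓ * Θ * P := by
        calc (4 / 3 : ℝ) ^ (m - 1) * ∫ v in (0 : ℝ)..ℓ, Sd Γ I v ^ m ≤
            (4 / 3 : ℝ) ^ (m - 1) * (2 * 4 ^ (m - 1) * K * ℓ * ((1 / 2) ^ (m - 1) * Θ) * P) := by
              refine mul_le_mul_of_nonneg_left (h2.trans ?_) (by positivity)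
              gcongr
          _ = ((4 / 3 : ℝ) ^ (m - 1) * (1 / 2) ^ (m - 1)) * (2 * 4 ^ (m - 1) * K * ℓ * Θ * P) := by ring
          _ ≤ 1 / 2 * (2 * 4 ^ (m - 1) * K * ℓ * Θ * P) := by gcongr
          _ = 4 ^ (m - 1) * K * ℓ * Θ * P := by ring
      have h7 : (4 : ℝ) ^ (m - 1) * ∫ v in (0 : ℝ)..ℓ, Bh Γ (2 ^ (I + 1)) v ^ m ≤
          4 ^ (m - 1) * K * ℓ * Θ * P := by
        calc (4 : ℝ) ^ (m - 1) * ∫ v in (0 : ℝ)..ℓ, Bh Γ (2 ^ (I + 1)) v ^ m ≤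
            (4 : ℝ) ^ (m - 1) * (K * ℓ * Θ * P) := by gcongr
          _ = 4 ^ (m - 1) * K * ℓ * Θ * P := by ring
      calc _ ≤ 4 ^ (m - 1) * K * ℓ * Θ * P + 4 ^ (m - 1) * K * ℓ * Θ * P := add_le_add h6 h7
        _ = 2 * 4 ^ (m - 1) * K * ℓ * Θ * P := by ring
  have hlogH : 2 ^ Nat.log 2 H ≤ H := Nat.pow_log_le_self 2 (by omega)
  have hlogHR : ((2 ^ Nat.log 2 H : ℕ) : ℝ) ≤ H := by exact_mod_cast hlogH
  have h2 := hind (Nat.log 2 H) (by
    refine le_trans ?_ hHN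
    gcongr)
  have h3 : ∫ v in (0 : ℝ)..ℓ, (∑ a ∈ Finset.Icc 1 H, ‖G Γ (a * v)‖) ^ m ≤
      ∫ v in (0 : ℝ)..ℓ, Sd Γ (Nat.log 2 H) v ^ m := by
    apply intervalIntegral.integral_mono_on hl0.le
    · exact ((Bf_cont Γ H).pow m).intervalIntegrable _ _
    · exact ((Sd_cont Γ _).pow m).intervalIntegrable _ _
    · intro v _
      exact pow_le_pow_left₀ (Bf_nonneg Γ H v) (Bf_le Γ H v) m
  refine h3.trans (h2.trans ?_)
  have h4 := Th_mono m _ _ (by exact_mod_cast Nat.one_le_two_pow) hlogHR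
  gcongr

/-- the second moment -/
lemma Bf_two {Γ : Finset ℝ} {T ℓ C : ℝ} (hD : Dat Γ T ℓ C) (H : ℕ) :
    ∫ v in (0 : ℝ)..ℓ, Bf Γ H v ^ 2 ≤ 44 * C * ℓ * H ^ 2 * (T * ℓ) := by
  have hl0 : 0 < ℓ := by linarith [hD.hl]
  have hT0 : 0 < T := by linarith [hD.hT]
  have hC0 : 0 < C := by linarith [hD.hC]
  have hN0 : 0 < T * ℓ := by positivity
  have hc : ∀ a : ℕ, Continuous (fun v : ℝ => ‖G Γ (a * v)‖ ^ 2) := fun a => by
    have := G_cont Γ; fun_prop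
  have ha : ∀ a ∈ Finset.Icc 1 H, ∫ v in (0 : ℝ)..ℓ, ‖G Γ (a * v)‖ ^ 2 ≤
      44 * ℓ * (C * (T * ℓ)) := by
    intro a ha
    rw [Finset.mem_Icc] at ha
    have ha1 : (1 : ℝ) ≤ a := by exact_mod_cast ha.1
    have ha0 : (0 : ℝ) < a := by linarith
    have h1 := msq hD (a / (2 * Real.pi)) ℓ hl0 (by
      rw [abs_of_pos (by positivity)]
      have : 2 * Real.pi * (a / (2 * Real.pi)) * ℓ = a * ℓ := by
        have := Real.pi_pos
        field_simp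
      rw [this]
      nlinarith)
    have h2 : ∫ u in (-ℓ)..ℓ, ‖G Γ (2 * Real.pi * (a / (2 * Real.pi)) * u)‖ ^ 2 =
        ∫ u in (-ℓ)..ℓ, ‖G Γ (a * u)‖ ^ 2 := by
      congr 1
      ext u
      have : 2 * Real.pi * (a / (2 * Real.pi)) * u = a * u := by
        have := Real.pi_pos
        field_simp
      rw [this]
    rw [h2] at h1
    refine le_trans ?_ h1
    apply intervalIntegral.integral_mono_interval
    · linarith
    · linarith
    · exact le_rfl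
    · exact Filter.Eventually.of_forall fun v => by positivity
    · exact (hc a).intervalIntegrable _ _
  have hpt : ∀ v : ℝ, Bf Γ H v ^ 2 ≤ H * ∑ a ∈ Finset.Icc 1 H, ‖G Γ (a * v)‖ ^ 2 := by
    intro v
    have h2 := sq_sum_le_card_mul_sum_sq (s := Finset.Icc 1 H) (f := fun a : ℕ => ‖G Γ (a * v)‖)
    rw [Nat.card_Icc, show H + 1 - 1 = H by omega] at h2
    exact h2
  have h1 : ∫ v in (0 : ℝ)..ℓ, Bf Γ H v ^ 2 ≤
      ∫ v in (0 : ℝ)..ℓ, (H : ℝ) * ∑ a ∈ Finset.Icc 1 H, ‖G Γ (a * v)‖ ^ 2 := by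
    apply intervalIntegral.integral_mono_on hl0.le
    · exact ((Bf_cont Γ H).pow 2).intervalIntegrable _ _
    · exact (continuous_const.mul (continuous_finsetSum _ fun a _ => hc a)).intervalIntegrable _ _
    · intro v _; exact hpt v
  rw [intervalIntegral.integral_const_mul, intervalIntegral.integral_finsetSum
    (fun a _ => (hc a).intervalIntegrable _ _)] at h1
  refine h1.trans ?_
  calc (H : ℝ) * ∑ a ∈ Finset.Icc 1 H, ∫ v in (0 : ℝ)..ℓ, ‖G Γ (a * v)‖ ^ 2 ≤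
      H * ∑ a ∈ Finset.Icc 1 H, 44 * ℓ * (C * (T * ℓ)) := by
        gcongr with a haa
        exact ha a haa
    _ = 44 * C * ℓ * H ^ 2 * (T * ℓ) := by
        rw [sum_const, Nat.card_Icc, show H + 1 - 1 = H by omega, nsmul_eq_mul]
        ring

/-- the sum over nonzero integers of modulus at most `H` -/
lemma sum_pm (Γ : Finset ℝ) (H : ℕ) (v : ℝ) :
    ∑ a ∈ (Finset.Icc (-(H : ℤ)) H).erase 0, ‖G Γ (a * v)‖ = 2 * Bf Γ H v := by
  classical
  have h1 : (Finset.Icc (-(H : ℤ)) H).erase 0 =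
      (Finset.Icc 1 H).image (fun a : ℕ => (a : ℤ)) ∪ (Finset.Icc 1 H).image (fun a : ℕ => -(a : ℤ)) := by
    ext x
    rw [mem_erase, Finset.mem_Icc, mem_union, mem_image, mem_image]
    constructor
    · rintro ⟨h0, h1, h2⟩
      rcases lt_or_gt_of_ne h0 with h | h
      · right
        refine ⟨(-x).toNat, ?_, ?_⟩
        · rw [Finset.mem_Icc]; omega
        · omega
      · left
        refine ⟨x.toNat, ?_, ?_⟩
        · rw [Finset.mem_Icc]; omega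
        · omega
    · rintro (⟨a, ha, rfl⟩ | ⟨a, ha, rfl⟩)
      · rw [Finset.mem_Icc] at ha; omega
      · rw [Finset.mem_Icc] at ha; omega
  rw [h1, sum_union, sum_image, sum_image]
  · have h2 : ∀ a : ℕ, ‖G Γ (((-(a : ℤ) : ℤ) : ℝ) * v)‖ = ‖G Γ ((a : ℝ) * v)‖ := by
      intro a
      push_cast
      rw [neg_mul, ← G_abs Γ (-((a : ℝ) * v)), abs_neg, G_abs]
    simp only [h2, Int.cast_natCast]
    unfold Bf
    ring
  · intro a _ b _ hab
    simpa using hab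
  · intro a _ b _ hab
    simpa using hab
  · rw [disjoint_left]
    intro x hx hx'
    obtain ⟨a, ha, rfl⟩ := mem_image.1 hx
    obtain ⟨b, hb, hab⟩ := mem_image.1 hx'
    rw [Finset.mem_Icc] at ha hb
    omega

lemma Bf_neg (Γ : Finset ℝ) (H : ℕ) (v : ℝ) : Bf Γ H (-v) = Bf Γ H v := by
  unfold Bf
  refine sum_congr rfl fun a _ => ?_
  rw [mul_neg, ← G_abs Γ (-((a : ℝ) * v)), abs_neg, G_abs]

/-- change of variables for an even function -/
lemma even_int (F : ℝ → ℝ) (hF : Continuous F) (he : ∀ v, F (-v) = F v) (ℓ : ℝ) :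
    ∫ u in (-(ℓ / (2 * Real.pi)))..(ℓ / (2 * Real.pi)), F (2 * Real.pi * u) =
      1 / Real.pi * ∫ v in (0 : ℝ)..ℓ, F v := by
  have hpi := Real.pi_pos
  rw [intervalIntegral.integral_comp_mul_left F (by positivity)]
  have e1 : 2 * Real.pi * (ℓ / (2 * Real.pi)) = ℓ := by field_simp
  have e2 : 2 * Real.pi * -(ℓ / (2 * Real.pi)) = -ℓ := by field_simp
  rw [e1, e2, ← intervalIntegral.integral_add_adjacent_intervals (hF.intervalIntegrable (-ℓ) 0)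
    (hF.intervalIntegrable 0 ℓ)]
  have e3 : ∫ v in (-ℓ)..0, F v = ∫ v in (0 : ℝ)..ℓ, F v := by
    have := intervalIntegral.integral_comp_neg (a := 0) (b := ℓ) F
    rw [neg_zero] at this
    rw [← this]
    congr 1
    ext v
    exact he v
  rw [e3, smul_eq_mul]
  field_simp
  ring

theorem s_sum (dya : S_DYA) : S_SUM := by
  classical
  intro C m hC hm
  obtain ⟨K, hK, h1⟩ := dya C m hC hm
  refine ⟨4 * 2 ^ m * K, ?_, ?_⟩
  · have : (1 : ℝ) ≤ 2 ^ m := one_le_pow₀ (by norm_num)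
    nlinarith
  intro Γ T ℓ hD H hH hHN y
  have hpi := Real.pi_pos
  have hl0 : 0 < ℓ := by linarith [hD.hl]
  have hT0 : 0 < T := by linarith [hD.hT]
  have hN0 : 0 < T * ℓ := by positivity
  have h2 := h1 Γ T ℓ hD H hH hHN
  have hE0 : 0 < ℓ / (2 * Real.pi) := by positivity
  have hw : 1 / (2 * Real.pi * (ℓ / (2 * Real.pi))) = 1 / ℓ := by field_simp
  have hc : ∀ r : Fin m → ℤ, cnt Γ (fun i => (r i : ℝ)) (y r) (1 / ℓ) * (ℓ / (2 * Real.pi)) ≤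
      2 * ∫ u in (-(ℓ / (2 * Real.pi)))..(ℓ / (2 * Real.pi)),
        ∏ i, ‖G Γ (2 * Real.pi * (r i : ℝ) * u)‖ := by
    intro r
    have := s_cnt Γ m (fun i => (r i : ℝ)) (y r) (ℓ / (2 * Real.pi)) hE0
    rwa [hw] at this
  have hcont : ∀ r : Fin m → ℤ, Continuous (fun u : ℝ => ∏ i, ‖G Γ (2 * Real.pi * (r i : ℝ) * u)‖) := by
    intro r
    have := G_cont Γ
    exact continuous_finsetProd _ fun i _ => by fun_prop
  have hsum : (∑ r ∈ RR m H, cnt Γ (fun i => (r i : ℝ)) (y r) (1 / ℓ)) * (ℓ / (2 * Real.pi)) ≤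
      2 * ∫ u in (-(ℓ / (2 * Real.pi)))..(ℓ / (2 * Real.pi)), (2 * Bf Γ H (2 * Real.pi * u)) ^ m := by
    rw [sum_mul]
    refine (sum_le_sum fun r _ => hc r).trans ?_
    rw [← mul_sum, ← intervalIntegral.integral_finsetSum
      (fun r _ => (hcont r).intervalIntegrable _ _)]
    apply le_of_eq
    congr 2
    ext u
    unfold RR
    have e1 : ∑ r ∈ Fintype.piFinset (fun _ : Fin m => (Finset.Icc (-(H : ℤ)) H).erase 0),
        ∏ i, ‖G Γ (2 * Real.pi * (r i : ℝ) * u)‖ =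
        ∏ _i : Fin m, ∑ a ∈ (Finset.Icc (-(H : ℤ)) H).erase 0, ‖G Γ ((a : ℝ) * (2 * Real.pi * u))‖ := by
      rw [prod_univ_sum]
      refine sum_congr rfl fun r _ => prod_congr rfl fun i _ => ?_
      congr 2
      ring
    rw [e1, prod_const, card_univ, Fintype.card_fin, sum_pm]
  have hbc := Bf_cont Γ H
  rw [even_int (fun v => (2 * Bf Γ H v) ^ m) (by fun_prop) (fun v => by simp only [Bf_neg])] at hsum
  simp only [mul_pow] at hsum
  rw [intervalIntegral.integral_const_mul] at hsum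
  have h3 : (∑ r ∈ RR m H, cnt Γ (fun i => (r i : ℝ)) (y r) (1 / ℓ)) * (ℓ / (2 * Real.pi)) ≤
      (4 * 2 ^ m * K * Th m H * (T * ℓ) ^ (m - 1)) * (ℓ / (2 * Real.pi)) := by
    refine hsum.trans ?_
    have e2 : 2 * (1 / Real.pi * (2 ^ m * ∫ v in (0 : ℝ)..ℓ, Bf Γ H v ^ m)) ≤
        2 * (1 / Real.pi * (2 ^ m * (K * ℓ * Th m H * (T * ℓ) ^ (m - 1)))) := by
      have h4 : ∫ v in (0 : ℝ)..ℓ, Bf Γ H v ^ m ≤ K * ℓ * Th m H * (T * ℓ) ^ (m - 1) := h2
      gcongr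
    refine e2.trans (le_of_eq ?_)
    field_simp
    ring
  exact le_of_mul_le_mul_right h3 hE0

end Pool.Agent.L7h52.LF
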