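import Pool.Agent.L7h52.LF.Stm3

/-! Project LF: third and higher moments from the weak bounds. -/

set_option autoImplicit false

open Finset MeasureTheory

namespace Pool.Agent.L7h52.LF

lemma rpow_nat' (x p : ℝ) (n : ℕ) (hx : 0 ≤ x) : (x ^ p) ^ n = x ^ (p * n) := by
  rw [← Real.rpow_natCast, ← Real.rpow_mul hx]

/-- third moment -/
theorem mom3 (lay : S_LAY) (s : Finset ℝ) (b : ℝ → ℝ) (h C K1 K2 K3 : ℝ) (hh : 1 ≤ h) (hC : 1 ≤ C)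
    (hK1 : 1 ≤ K1) (hK2 : 1 ≤ K2) (hb : ∀ v ∈ s, 0 ≤ b v ∧ b v ≤ C * h)
    (h3 : ∀ A ⊆ s, ∀ t : ℝ, 0 < t → (∀ v ∈ A, t ≤ b v) →
      (A.card : ℝ) ≤ K1 * h ^ 3 / t ^ 3 * (1 + Real.log A.card) ^ 5)
    (h4 : ∀ A ⊆ s, ∀ t : ℝ, 0 < t → (∀ v ∈ A, t ≤ b v) → (A.card : ℝ) ≤ K2 * h ^ 4 / t ^ 4)
    (h2 : ∑ v ∈ s, b v ^ 2 ≤ K3 * h ^ 3) :
    ∑ v ∈ s, b v ^ 3 ≤ (K3 + C ^ 3 + K1 * (5 + Real.log K2) ^ 6) * h ^ 3 * (1 + Real.log h) ^ 6 := by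
  classical
  have hh0 : 0 < h := by linarith
  have hlh : 0 ≤ Real.log h := Real.log_nonneg hh
  have hlK : 0 ≤ Real.log K2 := Real.log_nonneg hK2
  have hK3 : 0 ≤ K3 := by
    have e1 : 0 ≤ K3 * h ^ 3 := le_trans (sum_nonneg fun v _ => sq_nonneg _) h2
    by_contra hneg
    push Not at hneg
    have : K3 * h ^ 3 < 0 := mul_neg_of_neg_of_pos hneg (by positivity)
    linarith
  set s1 := s.filter (fun v => 1 ≤ b v) with hs1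
  set s0 := s.filter (fun v => ¬ 1 ≤ b v) with hs0
  have hsplit : ∑ v ∈ s, b v ^ 3 = ∑ v ∈ s1, b v ^ 3 + ∑ v ∈ s0, b v ^ 3 := by
    rw [hs1, hs0, sum_filter_add_sum_filter_not]
  have hlow : ∑ v ∈ s0, b v ^ 3 ≤ K3 * h ^ 3 := by
    calc ∑ v ∈ s0, b v ^ 3 ≤ ∑ v ∈ s0, b v ^ 2 := by
          refine sum_le_sum fun v hv => ?_
          rw [hs0, mem_filter] at hv
          have h5 := hb v hv.1
          have h6 := hv.2
          push Not at h6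
          calc b v ^ 3 = b v ^ 2 * b v := by ring
            _ ≤ b v ^ 2 * 1 := by gcongr
            _ = b v ^ 2 := by ring
      _ ≤ ∑ v ∈ s, b v ^ 2 :=
          sum_le_sum_of_subset_of_nonneg (filter_subset _ _) fun _ _ _ => sq_nonneg _
      _ ≤ _ := h2
  have hsub1 : s1 ⊆ s := filter_subset _ _
  obtain ⟨M, hM⟩ : ∃ M : ℝ, M = K2 * h ^ 4 := ⟨_, rfl⟩
  have hM1 : 1 ≤ M := by
    rw [hM]
    have : 1 ≤ h ^ 4 := one_le_pow₀ hh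
    nlinarith
  have hcard : (s1.card : ℝ) ≤ M := by
    have := h4 s1 hsub1 1 one_pos (fun v hv => (mem_filter.1 hv).2)
    rw [hM]
    simpa using this
  obtain ⟨κ, hκ⟩ : ∃ κ : ℝ, κ = 5 + Real.log K2 := ⟨_, rfl⟩
  have hlM : 1 + Real.log M ≤ κ * (1 + Real.log h) := by
    rw [hM, Real.log_mul (by positivity) (by positivity), Real.log_pow, hκ]
    push_cast
    nlinarith
  have hlM0 : 0 ≤ Real.log M := Real.log_nonneg hM1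
  obtain ⟨D, hD⟩ : ∃ D : ℝ, D = K1 * h ^ 3 * (1 + Real.log M) ^ 5 := ⟨_, rfl⟩
  have hD0 : 0 < D := by rw [hD]; positivity
  have hweak : ∀ t : ℝ, 0 < t → ((s1.filter (fun v => t ≤ b v ^ (3 / 4 : ℝ))).card : ℝ) ≤ D / t ^ 4 := by
    intro t ht
    set A := s1.filter (fun v => t ≤ b v ^ (3 / 4 : ℝ)) with hA
    have hAs1 : A ⊆ s1 := filter_subset _ _
    have hAs : A ⊆ s := hAs1.trans hsub1
    have hAb : ∀ v ∈ A, t ^ (4 / 3 : ℝ) ≤ b v := by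
      intro v hv
      have h5 := (mem_filter.1 hv).2
      have h6 := (hb v (hAs hv)).1
      have h7 : t ^ (4 / 3 : ℝ) ≤ (b v ^ (3 / 4 : ℝ)) ^ (4 / 3 : ℝ) :=
        Real.rpow_le_rpow ht.le h5 (by norm_num)
      rw [← Real.rpow_mul h6] at h7
      norm_num at h7
      exact h7
    have h5 := h3 A hAs (t ^ (4 / 3 : ℝ)) (by positivity) hAb
    have h6 : (t ^ (4 / 3 : ℝ)) ^ 3 = t ^ 4 := by
      rw [rpow_nat' _ _ _ ht.le]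
      norm_num
    rw [h6] at h5
    have h7 : Real.log A.card ≤ Real.log M := by
      rcases Nat.eq_zero_or_pos A.card with hz | hp
      · rw [hz]; simp only [Nat.cast_zero, Real.log_zero]; exact hlM0
      · apply Real.log_le_log (by exact_mod_cast hp)
        exact le_trans (by exact_mod_cast card_le_card hAs1) hcard
    have h8 : 0 ≤ Real.log (A.card : ℝ) := Real.log_natCast_nonneg _
    refine h5.trans ?_
    calc K1 * h ^ 3 / t ^ 4 * (1 + Real.log A.card) ^ 5 ≤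
        K1 * h ^ 3 / t ^ 4 * (1 + Real.log M) ^ 5 := by gcongr
      _ = D / t ^ 4 := by rw [hD]; ring
  obtain ⟨la, lb, lc⟩ := lay ℝ s1 (fun v => b v ^ (3 / 4 : ℝ)) ((C * h) ^ (3 / 4 : ℝ)) D
    (by positivity) hD0 (fun v hv => ⟨Real.rpow_nonneg (hb v (hsub1 hv)).1 _,
      Real.rpow_le_rpow (hb v (hsub1 hv)).1 (hb v (hsub1 hv)).2 (by norm_num)⟩) hweak
  have h5 := lb M hM1 hcard
  have h6 : ∑ v ∈ s1, (b v ^ (3 / 4 : ℝ)) ^ 4 = ∑ v ∈ s1, b v ^ 3 := by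
    refine sum_congr rfl fun v hv => ?_
    rw [rpow_nat' _ _ _ (hb v (hsub1 hv)).1]
    norm_num
  have h7 : ((C * h) ^ (3 / 4 : ℝ)) ^ 4 = (C * h) ^ 3 := by
    rw [rpow_nat' _ _ _ (by positivity)]
    norm_num
  rw [h6, h7] at h5
  have h8 : D * Real.log M ≤ K1 * κ ^ 6 * h ^ 3 * (1 + Real.log h) ^ 6 := by
    calc D * Real.log M ≤ D * (1 + Real.log M) := by
          apply mul_le_mul_of_nonneg_left _ hD0.le
          linarith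
      _ = K1 * h ^ 3 * (1 + Real.log M) ^ 6 := by rw [hD]; ring
      _ ≤ K1 * h ^ 3 * (κ * (1 + Real.log h)) ^ 6 := by gcongr
      _ = _ := by ring
  have h9 : 1 ≤ (1 + Real.log h) ^ 6 := one_le_pow₀ (by linarith)
  rw [hsplit]
  have h10 : C ^ 3 * h ^ 3 ≤ C ^ 3 * h ^ 3 * (1 + Real.log h) ^ 6 :=
    le_mul_of_one_le_right (by positivity) h9
  have h11 : K3 * h ^ 3 ≤ K3 * h ^ 3 * (1 + Real.log h) ^ 6 :=
    le_mul_of_one_le_right (by positivity) h9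
  rw [← hκ]
  calc ∑ v ∈ s1, b v ^ 3 + ∑ v ∈ s0, b v ^ 3 ≤
      ((C * h) ^ 3 + D * Real.log M) + K3 * h ^ 3 := add_le_add h5 hlow
    _ = C ^ 3 * h ^ 3 + D * Real.log M + K3 * h ^ 3 := by ring
    _ ≤ C ^ 3 * h ^ 3 * (1 + Real.log h) ^ 6 + K1 * κ ^ 6 * h ^ 3 * (1 + Real.log h) ^ 6 +
        K3 * h ^ 3 * (1 + Real.log h) ^ 6 := add_le_add (add_le_add h10 h8) h11
    _ = (K3 + C ^ 3 + K1 * κ ^ 6) * h ^ 3 * (1 + Real.log h) ^ 6 := by ring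

lemma log5 (n : ℕ) (hn : 1 ≤ n) : (1 + Real.log (n : ℝ)) ^ 5 ≤ 81 ^ 5 * (n : ℝ) ^ (1 / 16 : ℝ) := by
  have hn1 : (1 : ℝ) ≤ n := by exact_mod_cast hn
  have h1 : Real.log (n : ℝ) ≤ (n : ℝ) ^ (1 / 80 : ℝ) / (1 / 80) :=
    Real.log_le_rpow_div (by linarith) (by norm_num)
  have h2 : 1 ≤ (n : ℝ) ^ (1 / 80 : ℝ) := Real.one_le_rpow hn1 (by norm_num)
  have h3 : 0 ≤ Real.log (n : ℝ) := Real.log_nonneg hn1
  calc (1 + Real.log (n : ℝ)) ^ 5 ≤ (81 * (n : ℝ) ^ (1 / 80 : ℝ)) ^ 5 := by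
        apply pow_le_pow_left₀ (by linarith)
        linarith
    _ = 81 ^ 5 * ((n : ℝ) ^ (1 / 80 : ℝ)) ^ 5 := by ring
    _ = 81 ^ 5 * (n : ℝ) ^ (1 / 16 : ℝ) := by
        rw [rpow_nat' _ _ _ (by linarith)]
        norm_num

/-- moments of order at least four -/
theorem mom4 (lay : S_LAY) (s : Finset ℝ) (b : ℝ → ℝ) (h C K1 : ℝ) (hh : 1 ≤ h) (hC : 1 ≤ C)
    (hK1 : 1 ≤ K1) (hb : ∀ v ∈ s, 0 ≤ b v ∧ b v ≤ C * h)
    (h3 : ∀ A ⊆ s, ∀ t : ℝ, 0 < t → (∀ v ∈ A, t ≤ b v) →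
      (A.card : ℝ) ≤ K1 * h ^ 3 / t ^ 3 * (1 + Real.log A.card) ^ 5) (m : ℕ) (hm : 4 ≤ m) :
    ∑ v ∈ s, b v ^ m ≤ C ^ (m - 4) * (5 * (81 ^ 5 * K1) ^ (16 / 15 : ℝ) * C ^ (4 / 5 : ℝ)) * h ^ m := by
  classical
  have hh0 : 0 < h := by linarith
  obtain ⟨D, hD⟩ : ∃ D : ℝ, D = (81 ^ 5 * K1) ^ (16 / 15 : ℝ) * h ^ (16 / 5 : ℝ) := ⟨_, rfl⟩
  have hD0 : 0 < D := by rw [hD]; positivity
  have hweak : ∀ t : ℝ, 0 < t → ((s.filter (fun v => t ≤ b v ^ (4 / 5 : ℝ))).card : ℝ) ≤ D / t ^ 4 := by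
    intro t ht
    set A := s.filter (fun v => t ≤ b v ^ (4 / 5 : ℝ)) with hA
    have hAs : A ⊆ s := filter_subset _ _
    rcases Nat.eq_zero_or_pos A.card with hz | hp
    · rw [hz]; simp only [Nat.cast_zero]; positivity
    have hx1 : (1 : ℝ) ≤ A.card := by exact_mod_cast hp
    have hx0 : (0 : ℝ) < A.card := by linarith
    have hAb : ∀ v ∈ A, t ^ (5 / 4 : ℝ) ≤ b v := by
      intro v hv
      have h5 := (mem_filter.1 hv).2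
      have h6 := (hb v (hAs hv)).1
      have h7 : t ^ (5 / 4 : ℝ) ≤ (b v ^ (4 / 5 : ℝ)) ^ (5 / 4 : ℝ) :=
        Real.rpow_le_rpow ht.le h5 (by norm_num)
      rw [← Real.rpow_mul h6] at h7
      norm_num at h7
      exact h7
    have h5 := h3 A hAs (t ^ (5 / 4 : ℝ)) (by positivity) hAb
    have h6 : (t ^ (5 / 4 : ℝ)) ^ 3 = t ^ (15 / 4 : ℝ) := by
      rw [rpow_nat' _ _ _ ht.le]
      norm_num
    rw [h6] at h5
    have h7 := log5 A.card hp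
    have h8 : (A.card : ℝ) ≤ (81 ^ 5 * K1) * (h ^ 3 / t ^ (15 / 4 : ℝ)) * (A.card : ℝ) ^ (1 / 16 : ℝ) := by
      calc (A.card : ℝ) ≤ K1 * h ^ 3 / t ^ (15 / 4 : ℝ) * (1 + Real.log A.card) ^ 5 := h5
        _ ≤ K1 * h ^ 3 / t ^ (15 / 4 : ℝ) * (81 ^ 5 * (A.card : ℝ) ^ (1 / 16 : ℝ)) := by gcongr
        _ = _ := by ring
    have h9 : (A.card : ℝ) ^ (15 / 16 : ℝ) ≤ (81 ^ 5 * K1) * (h ^ 3 / t ^ (15 / 4 : ℝ)) := by
      have e1 : (A.card : ℝ) = (A.card : ℝ) ^ (15 / 16 : ℝ) * (A.card : ℝ) ^ (1 / 16 : ℝ) := by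
        rw [← Real.rpow_add hx0]; norm_num
      have e2 : (A.card : ℝ) ^ (15 / 16 : ℝ) * (A.card : ℝ) ^ (1 / 16 : ℝ) ≤
          (81 ^ 5 * K1) * (h ^ 3 / t ^ (15 / 4 : ℝ)) * (A.card : ℝ) ^ (1 / 16 : ℝ) := by
        rw [← e1]; exact h8
      exact le_of_mul_le_mul_right e2 (Real.rpow_pos_of_pos hx0 _)
    have h10 : ((A.card : ℝ) ^ (15 / 16 : ℝ)) ^ (16 / 15 : ℝ) ≤
        ((81 ^ 5 * K1) * (h ^ 3 / t ^ (15 / 4 : ℝ))) ^ (16 / 15 : ℝ) :=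
      Real.rpow_le_rpow (by positivity) h9 (by norm_num)
    have e2 : ((A.card : ℝ) ^ (15 / 16 : ℝ)) ^ (16 / 15 : ℝ) = A.card := by
      rw [← Real.rpow_mul hx0.le]; norm_num
    have e3 : ((81 ^ 5 * K1) * (h ^ 3 / t ^ (15 / 4 : ℝ))) ^ (16 / 15 : ℝ) = D / t ^ 4 := by
      rw [Real.mul_rpow (by positivity) (by positivity), Real.div_rpow (by positivity) (by positivity),
        ← Real.rpow_mul ht.le]
      have e4 : (h ^ 3) ^ (16 / 15 : ℝ) = h ^ (16 / 5 : ℝ) := by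
        rw [← Real.rpow_natCast, ← Real.rpow_mul hh0.le]; norm_num
      have e5 : t ^ (15 / 4 * (16 / 15) : ℝ) = t ^ 4 := by
        rw [← Real.rpow_natCast]; norm_num
      rw [e4, e5, hD]
      ring
    rw [e2, e3] at h10
    exact h10
  obtain ⟨la, lb, lc⟩ := lay ℝ s (fun v => b v ^ (4 / 5 : ℝ)) ((C * h) ^ (4 / 5 : ℝ)) D
    (by positivity) hD0 (fun v hv => ⟨Real.rpow_nonneg (hb v hv).1 _,
      Real.rpow_le_rpow (hb v hv).1 (hb v hv).2 (by norm_num)⟩) hweak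
  have h5 := la 5 le_rfl
  have h6 : ∑ v ∈ s, (b v ^ (4 / 5 : ℝ)) ^ 5 = ∑ v ∈ s, b v ^ 4 := by
    refine sum_congr rfl fun v hv => ?_
    rw [rpow_nat' _ _ _ (hb v hv).1]
    norm_num
  rw [h6, show 5 - 4 = 1 by norm_num, pow_one] at h5
  have h7 : 5 * D * (C * h) ^ (4 / 5 : ℝ) =
      5 * (81 ^ 5 * K1) ^ (16 / 15 : ℝ) * C ^ (4 / 5 : ℝ) * h ^ 4 := by
    rw [hD, Real.mul_rpow (by positivity) hh0.le]
    have e1 : h ^ (16 / 5 : ℝ) * h ^ (4 / 5 : ℝ) = h ^ 4 := by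
      rw [← Real.rpow_add hh0, ← Real.rpow_natCast]; norm_num
    rw [← e1]
    ring
  rw [h7] at h5
  have h8 : ∀ v ∈ s, b v ^ m ≤ (C * h) ^ (m - 4) * b v ^ 4 := by
    intro v hv
    have e1 : b v ^ m = b v ^ (m - 4) * b v ^ 4 := by rw [← pow_add]; congr 1; omega
    rw [e1]
    have := hb v hv
    have h9 : b v ^ (m - 4) ≤ (C * h) ^ (m - 4) := pow_le_pow_left₀ this.1 this.2 _
    have h10 : 0 ≤ b v ^ 4 := pow_nonneg this.1 4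
    exact mul_le_mul_of_nonneg_right h9 h10
  calc ∑ v ∈ s, b v ^ m ≤ ∑ v ∈ s, (C * h) ^ (m - 4) * b v ^ 4 := sum_le_sum h8
    _ = (C * h) ^ (m - 4) * ∑ v ∈ s, b v ^ 4 := by rw [mul_sum]
    _ ≤ (C * h) ^ (m - 4) * (5 * (81 ^ 5 * K1) ^ (16 / 15 : ℝ) * C ^ (4 / 5 : ℝ) * h ^ 4) := by gcongr
    _ = C ^ (m - 4) * (5 * (81 ^ 5 * K1) ^ (16 / 15 : ℝ) * C ^ (4 / 5 : ℝ)) * h ^ m := by
      have e1 : h ^ m = h ^ (m - 4) * h ^ 4 := by rw [← pow_add]; congr 1; omega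
      rw [mul_pow, e1]
      ring

end Pool.Agent.L7h52.LF
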