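import Pool.Agent.L7h52.LF.Wea
import Pool.Agent.L7h52.LF.Lay3
import Pool.Agent.L7h52.AR.Four

/-! Project LF: moments of a dyadic block. -/

set_option autoImplicit false

open Finset MeasureTheory

namespace Pool.Agent.L7h52.LF

open Pool.Agent.L7h52.AR (G Dat cnt G_cont G_le msq)

lemma Bh_cont (Γ : Finset ℝ) (h : ℕ) : Continuous (Bh Γ h) := by
  unfold Bh
  refine continuous_finsetSum _ fun a _ => ?_
  have := G_cont Γ
  fun_prop

lemma Bh_nonneg (Γ : Finset ℝ) (h : ℕ) (v : ℝ) : 0 ≤ Bh Γ h v :=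
  sum_nonneg fun _ _ => norm_nonneg _

lemma Bh_le {Γ : Finset ℝ} {T ℓ C : ℝ} (hD : Dat Γ T ℓ C) (h : ℕ) (v : ℝ) :
    Bh Γ h v ≤ h * (C * (T * ℓ)) := by
  unfold Bh
  have h1 : ∀ a ∈ Finset.Ico h (2 * h), ‖G Γ (a * v)‖ ≤ C * (T * ℓ) :=
    fun a _ => (G_le Γ _).trans hD.up
  refine (sum_le_sum h1).trans ?_
  rw [sum_const, Nat.card_Ico, show 2 * h - h = h by omega, nsmul_eq_mul]

lemma Bh_sq (Γ : Finset ℝ) (h : ℕ) (v : ℝ) :
    Bh Γ h v ^ 2 ≤ h * ∑ a ∈ Finset.Ico h (2 * h), ‖G Γ (a * v)‖ ^ 2 := by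
  have h2 := sq_sum_le_card_mul_sum_sq (s := Finset.Ico h (2 * h)) (f := fun a : ℕ => ‖G Γ (a * v)‖)
  rw [Nat.card_Ico, show 2 * h - h = h by omega] at h2
  exact h2

/-- the low frequencies -/
lemma low {Γ : Finset ℝ} {T ℓ C : ℝ} (hD : Dat Γ T ℓ C) (h m : ℕ) (hh : 1 ≤ h) (hm : 2 ≤ m) :
    ∫ v in (0 : ℝ)..(ℓ / h), Bh Γ h v ^ m ≤ 44 * C ^ (m - 1) * (h : ℝ) ^ (m - 1) * ℓ *
      (T * ℓ) ^ (m - 1) := by
  have hl0 : 0 < ℓ := by linarith [hD.hl]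
  have hT0 : 0 < T := by linarith [hD.hT]
  have hC0 : 0 < C := by linarith [hD.hC]
  have hN0 : 0 < T * ℓ := by positivity
  have hh1 : (1 : ℝ) ≤ h := by exact_mod_cast hh
  have hh0 : (0 : ℝ) < h := by linarith
  have he : 0 < ℓ / h := by positivity
  have ha : ∀ a ∈ Finset.Ico h (2 * h), ∫ v in (0 : ℝ)..(ℓ / h), ‖G Γ (a * v)‖ ^ 2 ≤
      44 * (ℓ / h) * (C * (T * ℓ)) := by
    intro a ha
    rw [Finset.mem_Ico] at ha
    have ha1 : (h : ℝ) ≤ a := by exact_mod_cast ha.1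
    have ha0 : (0 : ℝ) < a := by linarith
    have h1 := msq hD (a / (2 * Real.pi)) (ℓ / h) he (by
      rw [abs_of_pos (by positivity)]
      have : 2 * Real.pi * (a / (2 * Real.pi)) * (ℓ / h) = a / h * ℓ := by
        have := Real.pi_pos
        field_simp
      rw [this]
      have : 1 ≤ (a : ℝ) / h := by rw [le_div_iff₀ hh0]; linarith
      nlinarith)
    have h2 : ∫ u in (-(ℓ / h))..(ℓ / h), ‖G Γ (2 * Real.pi * (a / (2 * Real.pi)) * u)‖ ^ 2 =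
        ∫ u in (-(ℓ / h))..(ℓ / h), ‖G Γ (a * u)‖ ^ 2 := by
      congr 1
      ext u
      have : 2 * Real.pi * (a / (2 * Real.pi)) * u = a * u := by
        have := Real.pi_pos
        field_simp
      rw [this]
    rw [h2] at h1
    refine le_trans ?_ h1
    apply intervalIntegral.integral_mono_interval
    · linarith
    · linarith
    · exact le_rfl
    · exact Filter.Eventually.of_forall fun v => by positivity
    · have := G_cont Γ
      exact Continuous.intervalIntegrable (by fun_prop) _ _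
  have hsq : ∫ v in (0 : ℝ)..(ℓ / h), Bh Γ h v ^ 2 ≤ 44 * C * h * ℓ * (T * ℓ) := by
    have hc : ∀ a : ℕ, Continuous (fun v : ℝ => ‖G Γ (a * v)‖ ^ 2) := fun a => by
      have := G_cont Γ; fun_prop
    have h1 : ∫ v in (0 : ℝ)..(ℓ / h), Bh Γ h v ^ 2 ≤
        ∫ v in (0 : ℝ)..(ℓ / h), (h : ℝ) * ∑ a ∈ Finset.Ico h (2 * h), ‖G Γ (a * v)‖ ^ 2 := by
      apply intervalIntegral.integral_mono_on he.le
      · exact ((Bh_cont Γ h).pow 2).intervalIntegrable _ _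
      · exact (continuous_const.mul (continuous_finsetSum _ fun a _ => hc a)).intervalIntegrable _ _
      · intro v _; exact Bh_sq Γ h v
    rw [intervalIntegral.integral_const_mul, intervalIntegral.integral_finsetSum
      (fun a _ => (hc a).intervalIntegrable _ _)] at h1
    refine h1.trans ?_
    calc (h : ℝ) * ∑ a ∈ Finset.Ico h (2 * h), ∫ v in (0 : ℝ)..(ℓ / h), ‖G Γ (a * v)‖ ^ 2 ≤
        h * ∑ a ∈ Finset.Ico h (2 * h), 44 * (ℓ / h) * (C * (T * ℓ)) := by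
          gcongr with a haa
          exact ha a haa
      _ = 44 * C * h * ℓ * (T * ℓ) := by
          rw [sum_const, Nat.card_Ico, show 2 * h - h = h by omega, nsmul_eq_mul]
          field_simp
  have hpt : ∀ v : ℝ, Bh Γ h v ^ m ≤ (h * (C * (T * ℓ))) ^ (m - 2) * Bh Γ h v ^ 2 := by
    intro v
    have e1 : Bh Γ h v ^ m = Bh Γ h v ^ (m - 2) * Bh Γ h v ^ 2 := by
      rw [← pow_add]; congr 1; omega
    rw [e1]
    have := Bh_nonneg Γ h v
    gcongr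
    exact Bh_le hD h v
  have h3 : ∫ v in (0 : ℝ)..(ℓ / h), Bh Γ h v ^ m ≤
      ∫ v in (0 : ℝ)..(ℓ / h), (h * (C * (T * ℓ))) ^ (m - 2) * Bh Γ h v ^ 2 := by
    apply intervalIntegral.integral_mono_on he.le
    · exact ((Bh_cont Γ h).pow m).intervalIntegrable _ _
    · exact (continuous_const.mul ((Bh_cont Γ h).pow 2)).intervalIntegrable _ _
    · intro v _; exact hpt v
  rw [intervalIntegral.integral_const_mul] at h3
  refine h3.trans ?_
  calc (h * (C * (T * ℓ))) ^ (m - 2) * ∫ v in (0 : ℝ)..(ℓ / h), Bh Γ h v ^ 2 ≤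
      (h * (C * (T * ℓ))) ^ (m - 2) * (44 * C * h * ℓ * (T * ℓ)) := by gcongr
    _ = 44 * C ^ (m - 1) * (h : ℝ) ^ (m - 1) * ℓ * (T * ℓ) ^ (m - 1) := by
      obtain ⟨j, rfl⟩ : ∃ j, m = j + 2 := ⟨m - 2, by omega⟩
      rw [show j + 2 - 2 = j by omega, show j + 2 - 1 = j + 1 by omega, mul_pow, mul_pow]
      ring

lemma Th_low (m : ℕ) (h : ℝ) (hm : 3 ≤ m) (hh : 1 ≤ h) : h ^ (m - 1) ≤ Th m h := by
  unfold Th
  split_ifs with h1
  · have : m = 3 := by omega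
    subst this
    have h2 : 0 ≤ Real.log h := Real.log_nonneg hh
    have h3 : 1 ≤ (1 + Real.log h) ^ 6 := one_le_pow₀ (by linarith)
    show h ^ 2 ≤ _
    exact le_mul_of_one_le_right (by positivity) h3
  · exact le_rfl

theorem s_mom (wea : S_WEA) (we3 : S_WE3) (l2d : S_L2D) (lay : S_LAY) (dis : S_DIS) : S_MOM := by
  classical
  intro C m hC hm
  obtain ⟨K1, hK1, h1⟩ := wea C hC
  obtain ⟨K2, hK2, h2⟩ := l2d C hC
  obtain ⟨K4, hK4, h4⟩ := we3 C hC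
  have hC0 : 0 < C := by linarith
  obtain ⟨K3, hK3⟩ : ∃ K3 : ℝ, K3 = (K2 + C ^ 3 + K4 * (5 + Real.log K1) ^ 6) +
    C ^ (m - 4) * (5 * (81 ^ 5 * K4) ^ (16 / 15 : ℝ) * C ^ (4 / 5 : ℝ)) := ⟨_, rfl⟩
  have hlK1 : 0 ≤ Real.log K1 := Real.log_nonneg hK1
  have hp0 : 0 ≤ K2 + C ^ 3 + K4 * (5 + Real.log K1) ^ 6 := by positivity
  have hq0 : 0 ≤ C ^ (m - 4) * (5 * (81 ^ 5 * K4) ^ (16 / 15 : ℝ) * C ^ (4 / 5 : ℝ)) := by positivity
  have hK30 : 0 ≤ K3 := by rw [hK3]; exact add_nonneg hp0 hq0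
  have hC1m : 1 ≤ C ^ (m - 1) := one_le_pow₀ hC
  refine ⟨44 * C ^ (m - 1) + 3 * K3, by linarith, ?_⟩
  intro Γ T ℓ hD h hh hhN
  have hl0 : 0 < ℓ := by linarith [hD.hl]
  have hT0 : 0 < T := by linarith [hD.hT]
  have hN0 : 0 < T * ℓ := by positivity
  have hh1 : (1 : ℝ) ≤ h := by exact_mod_cast hh
  have hh0 : (0 : ℝ) < h := by linarith
  have hlow := low hD h m hh (by omega)
  have hTh := Th_low m h hm hh1
  have hTh0 : 0 ≤ Th m h := le_trans (by positivity) hTh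
  have hlh : ℓ / h ≤ ℓ := by rw [div_le_iff₀ hh0]; nlinarith
  -- the points
  obtain ⟨J, hJ1, hJ2, hJ3, hJ4⟩ := dis (fun v => Bh Γ h v ^ m) (ℓ / h) ℓ (1 / (h * T))
    ((Bh_cont Γ h).pow m) (fun v => pow_nonneg (Bh_nonneg Γ h v) m) hlh (by positivity)
  have hJsep : ∀ c, ∀ v ∈ J c, ∀ v' ∈ J c, v ≠ v' → 2 / (h * T) ≤ |v - v'| := by
    intro c v hv v' hv' hne
    have := hJ2 c v hv v' hv' hne
    rw [mul_one_div] at this
    exact this
  have hclass : ∀ c, ∑ v ∈ J c, Bh Γ h v ^ m ≤ K3 * (h * Th m h) * (T * ℓ) ^ m := by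
    intro c
    obtain ⟨b, hb⟩ : ∃ b : ℝ → ℝ, b = fun v => Bh Γ h v / (T * ℓ) := ⟨_, rfl⟩
    have hbB : ∀ v, Bh Γ h v = b v * (T * ℓ) := fun v => by rw [hb]; field_simp
    have hb0 : ∀ v, 0 ≤ b v := fun v => by rw [hb]; exact div_nonneg (Bh_nonneg Γ h v) hN0.le
    have hb1 : ∀ v, b v ≤ C * h := fun v => by
      rw [hb]
      show Bh Γ h v / (T * ℓ) ≤ _
      rw [div_le_iff₀ hN0]
      have := Bh_le hD h v
      linarith
    have hwk : ∀ A ⊆ J c, ∀ t : ℝ, 0 < t → (∀ v ∈ A, t ≤ b v) →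
        (A.card : ℝ) ≤ K1 * (h : ℝ) ^ 4 / t ^ 4 := by
      intro A hA t ht hAt
      refine h1 Γ T ℓ hD h A t hh (by nlinarith) ?_ ?_ ht ?_
      · intro v hv; exact hJ1 c v (hA hv)
      · intro v hv v' hv' hne
        exact hJsep c v (hA hv) v' (hA hv') hne
      · intro v hv
        rw [hbB v]
        have := hAt v hv
        gcongr
    have hw3 : ∀ A ⊆ J c, ∀ t : ℝ, 0 < t → (∀ v ∈ A, t ≤ b v) →
        (A.card : ℝ) ≤ K4 * (h : ℝ) ^ 3 / t ^ 3 * (1 + Real.log A.card) ^ 5 := by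
      intro A hA t ht hAt
      refine h4 Γ T ℓ hD h A t hh hhN ?_ ?_ ht ?_
      · intro v hv; exact hJ1 c v (hA hv)
      · intro v hv v' hv' hne
        exact hJsep c v (hA hv) v' (hA hv') hne
      · intro v hv
        rw [hbB v]
        have := hAt v hv
        gcongr
    have hsumb : ∑ v ∈ J c, b v ^ m ≤ K3 * (h * Th m h) := by
      unfold Th
      split_ifs with h5
      · have : m = 3 := by omega
        subst this
        have hQ : ∑ v ∈ J c, b v ^ 2 ≤ K2 * (h : ℝ) ^ 3 := by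
          have h7 := h2 Γ T ℓ hD h (J c) hh (fun v hv => ⟨le_trans (by positivity) (hJ1 c v hv).1,
            (hJ1 c v hv).2⟩) (hJsep c)
          have h8 : ∑ v ∈ J c, Bh Γ h v ^ 2 = (∑ v ∈ J c, b v ^ 2) * (T * ℓ) ^ 2 := by
            rw [sum_mul]
            refine sum_congr rfl fun v _ => ?_
            rw [hbB v, mul_pow]
          rw [h8] at h7
          exact le_of_mul_le_mul_right h7 (by positivity)
        have h9 := mom3 lay (J c) b h C K4 K1 K2 hh1 hC hK4 hK1 (fun v _ => ⟨hb0 v, hb1 v⟩) hw3 hwk hQ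
        refine h9.trans ?_
        have h10 : K2 + C ^ 3 + K4 * (5 + Real.log K1) ^ 6 ≤ K3 := by rw [hK3]; linarith
        have hlh0 : 0 ≤ Real.log (h : ℝ) := Real.log_nonneg hh1
        calc (K2 + C ^ 3 + K4 * (5 + Real.log K1) ^ 6) * (h : ℝ) ^ 3 * (1 + Real.log h) ^ 6 ≤
            K3 * (h : ℝ) ^ 3 * (1 + Real.log h) ^ 6 := by gcongr
          _ = _ := by ring
      · have h9 := mom4 lay (J c) b h C K4 hh1 hC hK4 (fun v _ => ⟨hb0 v, hb1 v⟩) hw3 m (by omega)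
        refine h9.trans ?_
        have h10 : C ^ (m - 4) * (5 * (81 ^ 5 * K4) ^ (16 / 15 : ℝ) * C ^ (4 / 5 : ℝ)) ≤ K3 := by
          rw [hK3]; linarith
        have e1 : (h : ℝ) * (h : ℝ) ^ (m - 1) = (h : ℝ) ^ m := by
          rw [← pow_succ']; congr 1; omega
        rw [e1]
        gcongr
    have e6 : ∑ v ∈ J c, Bh Γ h v ^ m = (∑ v ∈ J c, b v ^ m) * (T * ℓ) ^ m := by
      rw [sum_mul]
      refine sum_congr rfl fun v _ => ?_
      rw [hbB v, mul_pow]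
    rw [e6]
    gcongr
  have hhigh : ∫ v in (ℓ / h)..ℓ, Bh Γ h v ^ m ≤ 3 * K3 * ℓ * Th m h * (T * ℓ) ^ (m - 1) := by
    refine hJ4.trans ?_
    have e1 : ∑ c, ∑ v ∈ J c, Bh Γ h v ^ m ≤ ∑ _c : Fin 3, K3 * (h * Th m h) * (T * ℓ) ^ m :=
      sum_le_sum fun c _ => hclass c
    rw [sum_const, card_univ, Fintype.card_fin, nsmul_eq_mul] at e1
    calc 1 / (h * T) * ∑ c, ∑ v ∈ J c, Bh Γ h v ^ m ≤
        1 / (h * T) * (((3 : ℕ) : ℝ) * (K3 * (h * Th m h) * (T * ℓ) ^ m)) := by gcongr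
      _ = 3 * K3 * ℓ * Th m h * (T * ℓ) ^ (m - 1) := by
        obtain ⟨j, rfl⟩ : ∃ j, m = j + 1 := ⟨m - 1, by omega⟩
        rw [show j + 1 - 1 = j by omega, pow_succ]
        push_cast
        field_simp
  have hint : ∫ v in (0 : ℝ)..ℓ, Bh Γ h v ^ m = (∫ v in (0 : ℝ)..(ℓ / h), Bh Γ h v ^ m) +
      ∫ v in (ℓ / h)..ℓ, Bh Γ h v ^ m :=
    (intervalIntegral.integral_add_adjacent_intervals
      (((Bh_cont Γ h).pow m).intervalIntegrable _ _)
      (((Bh_cont Γ h).pow m).intervalIntegrable _ _)).symm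
  rw [hint]
  have hlow' : 44 * C ^ (m - 1) * (h : ℝ) ^ (m - 1) * ℓ * (T * ℓ) ^ (m - 1) ≤
      44 * C ^ (m - 1) * Th m h * ℓ * (T * ℓ) ^ (m - 1) := by gcongr
  calc (∫ v in (0 : ℝ)..(ℓ / h), Bh Γ h v ^ m) + ∫ v in (ℓ / h)..ℓ, Bh Γ h v ^ m ≤
      44 * C ^ (m - 1) * Th m h * ℓ * (T * ℓ) ^ (m - 1) +
        3 * K3 * ℓ * Th m h * (T * ℓ) ^ (m - 1) := add_le_add (hlow.trans hlow') hhigh
    _ = (44 * C ^ (m - 1) + 3 * K3) * ℓ * Th m h * (T * ℓ) ^ (m - 1) := by ring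

end Pool.Agent.L7h52.LF
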