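import Pool.Agent.L7h52.LF.All

/-! Project LF: pigeonhole lower bounds and the union bound. -/

set_option autoImplicit false

open Finset MeasureTheory

namespace Pool.Agent.L7h52.LF

open Pool.Agent.L7h52.AR (G Dat cnt)

/-- the union bound -/
lemma tup_le (Γ : Finset ℝ) (m H : ℕ) (ℓ : ℝ) (hl : 0 < ℓ) (hpos : ∀ x ∈ Γ, 1 / ℓ < x)
    [DecidablePred (fun x : Fin m → ℝ => ∃ r : Fin m → ℤ, r ≠ 0 ∧ (∀ i, |r i| ≤ (H : ℤ)) ∧
      |∑ i, (r i : ℝ) * x i| * ℓ ≤ 1)] :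
    ((((Fintype.piFinset (fun _ : Fin m => Γ)).filter (fun x : Fin m → ℝ =>
      ∃ r : Fin m → ℤ, r ≠ 0 ∧ (∀ i, |r i| ≤ (H : ℤ)) ∧ |∑ i, (r i : ℝ) * x i| * ℓ ≤ 1)).card : ℕ) : ℝ) ≤
    ∑ r ∈ RZ m H, cnt Γ (fun i => (r i : ℝ)) ((fun _ => 0 : (Fin m → ℤ) → ℝ) r) (1 / ℓ) := by
  classical
  have h1 : (Fintype.piFinset (fun _ : Fin m => Γ)).filter (fun x : Fin m → ℝ =>
      ∃ r : Fin m → ℤ, r ≠ 0 ∧ (∀ i, |r i| ≤ (H : ℤ)) ∧ |∑ i, (r i : ℝ) * x i| * ℓ ≤ 1) ⊆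
      (RZ m H).biUnion (fun r => (Fintype.piFinset (fun _ : Fin m => Γ)).filter
        (fun x : Fin m → ℝ => |∑ i, (r i : ℝ) * x i - 0| ≤ 1 / ℓ)) := by
    intro x hx
    rw [mem_filter] at hx
    obtain ⟨hxm, r, hr0, hrH, hrx⟩ := hx
    rw [mem_biUnion]
    refine ⟨r, ?_, ?_⟩
    · rw [mem_RZ]
      refine ⟨hrH, ?_⟩
      obtain ⟨i, hi⟩ : ∃ i, r i ≠ 0 := by
        by_contra hcon
        push Not at hcon
        exact hr0 (funext hcon)
      by_contra hcon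
      push Not at hcon
      have h2 : ∀ j, j ≠ i → r j = 0 := fun j hj => hcon i j (Ne.symm hj) hi
      have h3 : ∑ j, (r j : ℝ) * x j = (r i : ℝ) * x i := by
        rw [sum_eq_single i]
        · intro j _ hj
          rw [h2 j hj]; simp
        · intro h; exact absurd (mem_univ i) h
      rw [h3, abs_mul] at hrx
      have h4 : (1 : ℝ) ≤ |(r i : ℝ)| := by
        rw [← Int.cast_abs]
        exact_mod_cast Int.one_le_abs hi
      have h5 := hpos (x i) (Fintype.mem_piFinset.1 hxm i)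
      have h6 : 0 < 1 / ℓ := by positivity
      have h7 : 1 < x i * ℓ := by
        rwa [div_lt_iff₀ hl] at h5
      have h8 : |x i| = x i := abs_of_pos (by linarith)
      rw [h8] at hrx
      have h9 : 0 < x i * ℓ := by linarith
      nlinarith
    · rw [mem_filter]
      refine ⟨hxm, ?_⟩
      rw [sub_zero, le_div_iff₀ hl]
      exact hrx
  have h2 : (((Fintype.piFinset (fun _ : Fin m => Γ)).filter (fun x : Fin m → ℝ =>
      ∃ r : Fin m → ℤ, r ≠ 0 ∧ (∀ i, |r i| ≤ (H : ℤ)) ∧ |∑ i, (r i : ℝ) * x i| * ℓ ≤ 1)).card : ℕ) ≤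
      ∑ r ∈ RZ m H, ((Fintype.piFinset (fun _ : Fin m => Γ)).filter
        (fun x : Fin m → ℝ => |∑ i, (r i : ℝ) * x i - 0| ≤ 1 / ℓ)).card :=
    (card_le_card h1).trans card_biUnion_le
  refine le_trans (Nat.cast_le.2 h2) ?_
  rw [Nat.cast_sum]
  refine sum_le_sum fun r _ => ?_
  unfold cnt
  refine le_of_eq ?_
  congr 2

/-- pigeonhole: every tuple has a small linear form -/
lemma dirichlet (m H : ℕ) (x : Fin m → ℝ) (T ℓ : ℝ) (hm : 2 ≤ m) (hH : 1 ≤ H) (hl : 0 < ℓ)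
    (hx : ∀ i, 0 ≤ x i ∧ x i ≤ T) (h : m * (T * ℓ) ≤ (H : ℝ) ^ (m - 1)) :
    ∃ r : Fin m → ℤ, r ≠ 0 ∧ (∀ i, |r i| ≤ (H : ℤ)) ∧ |∑ i, (r i : ℝ) * x i| * ℓ ≤ 1 := by
  classical
  have hH1 : (1 : ℝ) ≤ H := by exact_mod_cast hH
  set f : (Fin m → ℕ) → ℝ := fun r => (∑ i, (r i : ℝ) * x i) * ℓ with hf
  have hf0 : ∀ r, 0 ≤ f r := fun r =>
    mul_nonneg (sum_nonneg fun i _ => mul_nonneg (Nat.cast_nonneg _) (hx i).1) hl.le
  set A := Fintype.piFinset (fun _ : Fin m => Finset.range (H + 1)) with hA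
  have hfA : ∀ r ∈ A, f r ≤ (H : ℝ) ^ m := by
    intro r hr
    rw [hA, Fintype.mem_piFinset] at hr
    have h1 : ∑ i, (r i : ℝ) * x i ≤ ∑ _i : Fin m, (H : ℝ) * T := by
      refine sum_le_sum fun i _ => ?_
      have h2 : (r i : ℝ) ≤ H := by
        have := hr i
        rw [Finset.mem_range] at this
        exact_mod_cast (by omega : r i ≤ H)
      have h3 : (0 : ℝ) ≤ r i := Nat.cast_nonneg _
      have h4 := hx i
      exact mul_le_mul h2 h4.2 h4.1 (by linarith)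
    rw [sum_const, card_univ, Fintype.card_fin, nsmul_eq_mul] at h1
    calc f r ≤ (m * (H * T)) * ℓ := mul_le_mul_of_nonneg_right h1 hl.le
      _ = H * (m * (T * ℓ)) := by ring
      _ ≤ H * (H : ℝ) ^ (m - 1) := by gcongr
      _ = (H : ℝ) ^ m := by rw [← pow_succ']; congr 1; omega
  have hcard : (Finset.range (H ^ m + 1)).card < A.card := by
    rw [card_range, hA, Fintype.card_piFinset, prod_const, card_range, card_univ, Fintype.card_fin]
    obtain ⟨j, rfl⟩ : ∃ j, m = j + 1 := ⟨m - 1, by omega⟩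
    have h1 : H ^ j ≤ (H + 1) ^ j := Nat.pow_le_pow_left (by omega) j
    have h2 : H + 1 ≤ (H + 1) ^ j := Nat.le_self_pow (by omega) _
    rw [pow_succ, pow_succ]
    nlinarith
  obtain ⟨r, hr, r', hr', hne, heq⟩ := Finset.exists_ne_map_eq_of_card_lt_of_maps_to hcard
    (f := fun r => ⌊f r⌋₊) (by
      intro r hr
      simp only [Finset.coe_range, Set.mem_Iio]
      have h1 := hfA r hr
      have h2 : ⌊f r⌋₊ ≤ H ^ m := by
        apply Nat.floor_le_of_le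
        push_cast
        exact h1
      omega)
  refine ⟨fun i => (r i : ℤ) - (r' i : ℤ), ?_, ?_, ?_⟩
  · intro h0
    apply hne
    ext i
    have := congrFun h0 i
    simp only [Pi.zero_apply] at this
    omega
  · intro i
    rw [hA, Fintype.mem_piFinset] at hr hr'
    have h1 := hr i
    have h2 := hr' i
    rw [Finset.mem_range] at h1 h2
    show |(r i : ℤ) - (r' i : ℤ)| ≤ (H : ℤ)
    rw [abs_le]
    constructor <;> omega
  · have h1 : (∑ i, (((r i : ℤ) - (r' i : ℤ) : ℤ) : ℝ) * x i) * ℓ = f r - f r' := by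
      rw [hf]
      simp only
      rw [← sub_mul, ← sum_sub_distrib]
      congr 1
      refine sum_congr rfl fun i _ => ?_
      push_cast
      ring
    have h2 : |∑ i, (((r i : ℤ) - (r' i : ℤ) : ℤ) : ℝ) * x i| * ℓ = |f r - f r'| := by
      rw [← h1, abs_mul, abs_of_pos hl]
    rw [h2, abs_le]
    have a1 := Nat.floor_le (hf0 r)
    have a2 := Nat.lt_floor_add_one (f r)
    have a3 := Nat.floor_le (hf0 r')
    have a4 := Nat.lt_floor_add_one (f r')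
    have a5 : ((⌊f r⌋₊ : ℕ) : ℝ) = (⌊f r'⌋₊ : ℕ) := by exact_mod_cast heq
    constructor <;> linarith

/-- pigeonhole: every form has a popular value -/
lemma popular (Γ : Finset ℝ) (m H : ℕ) (T ℓ : ℝ) (hl : 0 < ℓ) (hT : 0 < T)
    (hx : ∀ x ∈ Γ, 0 < x ∧ x ≤ T) (r : Fin m → ℤ) (hr : ∀ i, |r i| ≤ (H : ℤ)) :
    ∃ y : ℝ, (Γ.card : ℝ) ^ m ≤ (m * H * (T * ℓ) + 2) *
      (((Fintype.piFinset (fun _ : Fin m => Γ)).filter
        (fun x : Fin m → ℝ => |∑ i, (r i : ℝ) * x i - y| * ℓ ≤ 1)).card : ℝ) := by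
  classical
  set B : ℝ := m * H * (T * ℓ) / 2 with hB
  have hB0 : 0 ≤ B := by positivity
  set f : (Fin m → ℝ) → ℝ := fun x => (∑ i, (r i : ℝ) * x i) * ℓ / 2 with hf
  set A := Fintype.piFinset (fun _ : Fin m => Γ) with hA
  have hfA : ∀ x ∈ A, |f x| ≤ B := by
    intro x hxA
    rw [hA, Fintype.mem_piFinset] at hxA
    have h1 : |∑ i, (r i : ℝ) * x i| ≤ ∑ _i : Fin m, (H : ℝ) * T := by
      refine (abs_sum_le_sum_abs _ _).trans (sum_le_sum fun i _ => ?_)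
      rw [abs_mul]
      have h2 : |(r i : ℝ)| ≤ H := by
        rw [← Int.cast_abs]
        exact_mod_cast hr i
      have h3 := hx _ (hxA i)
      rw [abs_of_pos h3.1]
      exact mul_le_mul h2 h3.2 h3.1.le (by positivity)
    rw [sum_const, card_univ, Fintype.card_fin, nsmul_eq_mul] at h1
    rw [hf]
    simp only
    rw [abs_div, abs_mul, abs_of_pos hl, abs_of_pos (by norm_num : (0 : ℝ) < 2), hB]
    apply div_le_div_of_nonneg_right _ (by norm_num)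
    calc |∑ i, (r i : ℝ) * x i| * ℓ ≤ (m * (H * T)) * ℓ := by gcongr
      _ = m * H * (T * ℓ) := by ring
  set I := Finset.Icc ⌊-B⌋ ⌊B⌋ with hI
  have hIcard : (I.card : ℝ) ≤ m * H * (T * ℓ) + 2 := by
    rw [hI, Int.card_Icc]
    have h1 : ⌊-B⌋ ≤ ⌊B⌋ := Int.floor_le_floor (by linarith)
    have h2 : (((⌊B⌋ + 1 - ⌊-B⌋).toNat : ℕ) : ℝ) = ((⌊B⌋ + 1 - ⌊-B⌋ : ℤ) : ℝ) := by
      have : (((⌊B⌋ + 1 - ⌊-B⌋).toNat : ℕ) : ℤ) = ⌊B⌋ + 1 - ⌊-B⌋ := Int.toNat_of_nonneg (by omega)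
      exact_mod_cast this
    rw [h2]
    push_cast
    have h3 := Int.floor_le B
    have h4 := Int.lt_floor_add_one (-B)
    have h5 : m * H * (T * ℓ) = 2 * B := by rw [hB]; ring
    rw [h5]
    linarith
  have hmaps : ∀ x ∈ A, ⌊f x⌋ ∈ I := by
    intro x hxA
    have h1 := abs_le.1 (hfA x hxA)
    rw [hI, Finset.mem_Icc]
    exact ⟨Int.floor_le_floor h1.1, Int.floor_le_floor h1.2⟩
  have hAcard : (A.card : ℝ) = (Γ.card : ℝ) ^ m := by
    rw [hA, Fintype.card_piFinset, prod_const, card_univ, Fintype.card_fin]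
    push_cast
    rfl
  have hIne : I.Nonempty := by
    rw [hI, Finset.nonempty_Icc]
    exact Int.floor_le_floor (by linarith)
  have hsum : (A.card : ℝ) = ∑ k ∈ I, ((A.filter (fun x => ⌊f x⌋ = k)).card : ℝ) := by
    rw [card_eq_sum_card_fiberwise hmaps]
    push_cast
    rfl
  obtain ⟨k, hk, hkmax⟩ := I.exists_max_image (fun k => ((A.filter (fun x => ⌊f x⌋ = k)).card : ℝ)) hIne
  refine ⟨(2 * k + 1) / ℓ, ?_⟩
  have h1 : (A.card : ℝ) ≤ I.card * ((A.filter (fun x => ⌊f x⌋ = k)).card : ℝ) := by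
    rw [hsum]
    calc _ ≤ ∑ _k' ∈ I, ((A.filter (fun x => ⌊f x⌋ = k)).card : ℝ) := sum_le_sum fun k' hk' => hkmax k' hk'
      _ = _ := by rw [sum_const, nsmul_eq_mul]
  have h2 : ((A.filter (fun x => ⌊f x⌋ = k)).card : ℝ) ≤
      ((A.filter (fun x : Fin m → ℝ => |∑ i, (r i : ℝ) * x i - (2 * k + 1) / ℓ| * ℓ ≤ 1)).card : ℝ) := by
    refine Nat.cast_le.2 (card_le_card ?_)
    intro x hx
    rw [mem_filter] at hx ⊢
    refine ⟨hx.1, ?_⟩
    have h3 : |∑ i, (r i : ℝ) * x i - (2 * k + 1) / ℓ| * ℓ = |2 * f x - (2 * k + 1)| := by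
      rw [← abs_of_pos hl, ← abs_mul, abs_of_pos hl]
      congr 1
      rw [hf]
      field_simp
    rw [h3, abs_le]
    have h4 := Int.floor_le (f x)
    have h5 := Int.lt_floor_add_one (f x)
    rw [hx.2] at h4 h5
    constructor <;> linarith
  rw [← hAcard]
  calc (A.card : ℝ) ≤ I.card * ((A.filter (fun x => ⌊f x⌋ = k)).card : ℝ) := h1
    _ ≤ (m * H * (T * ℓ) + 2) * _ := by gcongr

end Pool.Agent.L7h52.LF
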