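import Pool.Agent.L7h52.LF.Stm

/-! Project LF (helper52), second part: the weak `L³` bound.  Exact statements. -/

set_option autoImplicit false

open Finset MeasureTheory

namespace Pool.Agent.L7h52.LF

open Pool.Agent.L7h52.AR (G Dat cnt)

/-- product of the entries of a triple -/
def prd (p : ℕ × ℕ × ℕ) : ℕ := p.1 * p.2.1 * p.2.2

/-- triples with entries in `[1, Q]` -/
def box (Q : ℕ) : Finset (ℕ × ℕ × ℕ) := Finset.Icc 1 Q ×ˢ Finset.Icc 1 Q ×ˢ Finset.Icc 1 Q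

/-- [EN3] weighted multiplicative energy, with an approximate ratio.
Proof. (a) If `prd p = prd q`, there are `g : Fin 3 × Fin 3 → ℕ` with `p_i = ∏_j g_ij`, `q_j = ∏_i g_ij`
(three applications of `exists_dvd_and_dvd_of_dvd_mul`: `p_1 ∣ q_1 (q_2 q_3)` gives `p_1 = g_11 g_12 g_13`
with `g_1j ∣ q_j`; divide; the same for `p_2`; and `p_3` is the product of the remaining quotients).
So `∑_{prd p = prd q} 1 / prd p ≤ ∑_{g ∈ [1, Q]^9} ∏ 1 / g_ij = (∑_{g ≤ Q} 1 / g) ^ 9 ≤ (1 + log Q) ^ 9`.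
(b) With `d n = #{p ∈ box Q | prd p = n}` the sum is `∑ d n d n' / √(n n')` over `n, n'` with
`|n x - n' y| ≤ Δ min x y`; use `2 d n d n' / √(n n') ≤ d n ^ 2 / n + d n' ^ 2 / n'`; for every `n'` there
are at most `2 Δ + 1` such `n`, and vice versa; and `∑ d n ^ 2 / n` is the sum in (a). -/
def S_EN3 : Prop := ∀ (Q : ℕ) (x y Δ : ℝ), 1 ≤ Q → 0 < x → 0 < y → 0 ≤ Δ →
  ∑ z ∈ (box Q ×ˢ box Q).filter (fun z : (ℕ × ℕ × ℕ) × (ℕ × ℕ × ℕ) =>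
      |(prd z.1 : ℝ) * x - (prd z.2 : ℝ) * y| ≤ Δ * min x y),
    1 / Real.sqrt ((prd z.1 : ℝ) * (prd z.2 : ℝ)) ≤ (2 * Δ + 1) * (1 + Real.log Q) ^ 9

/-- [BR] walks of length three.  Proof: with `d v = ∑ v', k v v'` and `α > 0`,
`3 k v v' ≤ k v v' (d v * d v' / α ^ 2 + α / d v + α / d v')` (AM-GM), hence
`3 S ≤ P / α ^ 2 + 2 α #J`, where `P` is the sum on the right; choose `α ^ 3 = P / #J`. -/
def S_BR : Prop := ∀ (J : Finset ℝ) (k : ℝ → ℝ → ℝ), (∀ v v', 0 ≤ k v v') → (∀ v v', k v v' = k v' v) →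
  (∑ v ∈ J, ∑ v' ∈ J, k v v') ^ 3 ≤
    (J.card : ℝ) ^ 2 * ∑ v₀ ∈ J, ∑ v₁ ∈ J, ∑ v₂ ∈ J, ∑ v₃ ∈ J, k v₀ v₁ * k v₁ v₂ * k v₂ v₃

/-- [CO3] collisions of multiples, second form.
Proof.  For `v, v'` let `P v v'` be the set of coprime `(p, q)`, `1 ≤ p, q < 2 h`, with
`|p v - q v'| < min p q / (h T)`, and `M = max p q`.
(1) If `(a, a')` is counted for `(v, v')` and `g = gcd a a'`, then `(p, q) = (a / g, a' / g) ∈ P v v'`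
(as `g p, g q ≥ h`), and `g M < 2 h`; so the number of `(a, a')` is at most `∑_{(p, q) ∈ P v v'} 2 h / M`.
(2) `#P v v' ≤ 1`: for two elements `v |p q' - p' q| ≤ q' |p v - q v'| + q |p' v - q' v'| < 8 h / T ≤ λ ≤ v`.
(3) Let `k v v' = ∑ 1 / M` over the `(p, q) ∈ P v v'` with `M ≤ Q`, `Q = min #J (2 h)`; those with
`M > #J` contribute at most `#J ^ 2 / #J = #J` to `∑ v, ∑ v', ∑ 1 / M`, by (2).  So the number of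
collisions is at most `2 h (#J + S)`, `S = ∑ v, ∑ v', k v v'`.
(4) By [BR] `S ^ 3 ≤ #J ^ 2 P`, where `P = ∑ k v₀ v₁ k v₁ v₂ k v₂ v₃` is a sum over `v₀, …, v₃` and
`(p_i, q_i) ∈ P v_(i-1) v_i`, `i = 1, 2, 3`.  Given `v₀, v₃` and the `(p_i, q_i)`, there is at most one `v₁`
(`|v₁ - p₁ v₀ / q₁| < 1 / (h T)` and the points are separated by `2 / (h T)`) and at most one `v₂`.
Moreover `|p₁ p₂ p₃ v₀ - q₁ q₂ q₃ v₃| ≤ p₂ p₃ |p₁ v₀ - q₁ v₁| + q₁ p₃ |p₂ v₁ - q₂ v₂| + q₁ q₂ |p₃ v₂ - q₃ v₃|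
≤ 3 (2 h) ^ 3 / (h T) = 24 h ^ 2 / T ≤ Δ min v₀ v₃` with `Δ = 24 h ^ 2 / (T λ)`, and
`∏ 1 / M_i ≤ 1 / √(p₁ p₂ p₃ q₁ q₂ q₃)`.  So `P ≤ #J ^ 2 (2 Δ + 1) (1 + log Q) ^ 9` by [EN3]. -/
def S_CO3 : Prop := ∀ (T lam : ℝ) (h : ℕ) (J : Finset ℝ), 0 < T → 0 < lam → 1 ≤ h →
  8 * (h : ℝ) ≤ T * lam → (∀ v ∈ J, lam ≤ v) →
  (∀ v ∈ J, ∀ v' ∈ J, v ≠ v' → 2 / (h * T) ≤ |v - v'|) →
  ((((J ×ˢ J) ×ˢ (Finset.Ico h (2 * h) ×ˢ Finset.Ico h (2 * h))).filter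
    (fun q : (ℝ × ℝ) × (ℕ × ℕ) => |(q.2.1 : ℝ) * q.1.1 - (q.2.2 : ℝ) * q.1.2| < 1 / T)).card : ℝ) ^ 3 ≤
    64 * (h : ℝ) ^ 3 * (J.card : ℝ) ^ 4 * (48 * (h : ℝ) ^ 2 / (T * lam) + 1) *
      (1 + Real.log J.card) ^ 9

/-- [WE3] from LS and CO3 -/
def S_WE3 : Prop := ∀ C : ℝ, 1 ≤ C → ∃ K : ℝ, 1 ≤ K ∧ ∀ (Γ : Finset ℝ) (T ℓ : ℝ), Dat Γ T ℓ C →
  ∀ (h : ℕ) (J : Finset ℝ) (t : ℝ), 1 ≤ h → 16 * (h : ℝ) ^ 2 ≤ T * ℓ → (∀ v ∈ J, ℓ / h ≤ v ∧ v ≤ ℓ) →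
    (∀ v ∈ J, ∀ v' ∈ J, v ≠ v' → 2 / (h * T) ≤ |v - v'|) → 0 < t →
    (∀ v ∈ J, t * (T * ℓ) ≤ Bh Γ h v) → (J.card : ℝ) ≤ K * h ^ 3 / t ^ 3 * (1 + Real.log J.card) ^ 5

end Pool.Agent.L7h52.LF
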