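import Pool.Agent.L7h52.LF.Stm3

/-! Project LF: the weak `L³` bound. -/

set_option autoImplicit false

open Finset MeasureTheory

namespace Pool.Agent.L7h52.LF

open Pool.Agent.L7h52.AR (G Dat cnt)

/-- number of collisions -/
noncomputable def coll (T : ℝ) (h : ℕ) (J : Finset ℝ) : ℝ :=
  ((((J ×ˢ J) ×ˢ (Finset.Ico h (2 * h) ×ˢ Finset.Ico h (2 * h))).filter
    (fun q : (ℝ × ℝ) × (ℕ × ℕ) => |(q.2.1 : ℝ) * q.1.1 - (q.2.2 : ℝ) * q.1.2| < 1 / T)).card : ℝ)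

/-- large values and collisions -/
theorem core (ls : S_LS) (C : ℝ) (hC : 1 ≤ C) : ∃ K : ℝ, 1 ≤ K ∧
    ∀ (Γ : Finset ℝ) (T ℓ : ℝ), Dat Γ T ℓ C → ∀ (h : ℕ) (J : Finset ℝ) (t Λ : ℝ), 1 ≤ h →
    ℓ ≤ 2 * h * Λ → (∀ v ∈ J, 0 ≤ v ∧ v ≤ Λ) → 0 < t →
    (∀ v ∈ J, t * (T * ℓ) ≤ Bh Γ h v) →
    ((J.card : ℝ) * t) ^ 2 ≤ K * (h * Λ / ℓ) * coll T h J := by
  classical
  obtain ⟨K, hK, h1⟩ := ls C hC
  have hK0 : 0 < K := by linarith
  refine ⟨4 * K, by linarith, ?_⟩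
  intro Γ T ℓ h h0 J t Λ hh hΛ hJ ht hJt
  have hl0 : 0 < ℓ := by linarith [h.hl]
  have hT0 : 0 < T := by linarith [h.hT]
  have hN0 : 0 < T * ℓ := by positivity
  have hh1 : (1 : ℝ) ≤ h0 := by exact_mod_cast hh
  have hh00 : (0 : ℝ) < h0 := by linarith
  obtain ⟨P, hP⟩ : ∃ P : Finset (ℝ × ℕ), P = J ×ˢ Finset.Ico h0 (2 * h0) := ⟨_, rfl⟩
  obtain ⟨w, hw⟩ : ∃ w : ℝ × ℕ → ℝ, w = fun p => (p.2 : ℝ) * p.1 := ⟨_, rfl⟩
  obtain ⟨c, hc⟩ : ∃ c : ℝ × ℕ → ℤ, c = fun p => ⌊w p * T⌋ := ⟨_, rfl⟩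
  have hPm : ∀ p ∈ P, p.1 ∈ J ∧ h0 ≤ p.2 ∧ p.2 < 2 * h0 := by
    intro p hp
    rw [hP, mem_product, Finset.mem_Ico] at hp
    exact hp
  -- the number of points
  have hk : (J.card : ℝ) * (t * (T * ℓ)) ≤ ∑ p ∈ P, ‖G Γ (w p)‖ := by
    rw [hP, sum_product, ← nsmul_eq_mul, ← sum_const]
    refine sum_le_sum fun v hv => ?_
    have := hJt v hv
    unfold Bh at this
    rw [hw]
    exact this
  -- representatives
  obtain ⟨Im, hIm⟩ : ∃ Im : Finset ℤ, Im = P.image c := ⟨_, rfl⟩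
  have hrep : ∀ i ∈ Im, ∃ p ∈ P, c p = i ∧ ∀ p' ∈ P, c p' = i → ‖G Γ (w p')‖ ≤ ‖G Γ (w p)‖ := by
    intro i hi
    rw [hIm, mem_image] at hi
    obtain ⟨p0, hp0, hp0i⟩ := hi
    obtain ⟨p, hp, hmax⟩ := exists_max_image (P.filter (fun p => c p = i)) (fun p => ‖G Γ (w p)‖)
      ⟨p0, mem_filter.2 ⟨hp0, hp0i⟩⟩
    rw [mem_filter] at hp
    exact ⟨p, hp.1, hp.2, fun p' hp' hi' => hmax p' (mem_filter.2 ⟨hp', hi'⟩)⟩
  choose! rep hrep1 hrep2 hrep3 using hrep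
  obtain ⟨μ, hμ⟩ : ∃ μ : ℤ → ℝ, μ = fun i => ((P.filter (fun p => c p = i)).card : ℝ) := ⟨_, rfl⟩
  have hstep : ∑ p ∈ P, ‖G Γ (w p)‖ ≤ ∑ i ∈ Im, μ i * ‖G Γ (w (rep i))‖ := by
    rw [← sum_fiberwise_of_maps_to (s := P) (t := Im) (g := c) (fun p hp => by
      rw [hIm]; exact mem_image_of_mem c hp)]
    refine sum_le_sum fun i hi => ?_
    rw [hμ]
    rw [← nsmul_eq_mul, ← sum_const]
    refine sum_le_sum fun p hp => ?_
    rw [mem_filter] at hp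
    exact hrep3 i hi p hp.1 hp.2
  have hCS := Finset.sum_mul_sq_le_sq_mul_sq Im μ (fun i => ‖G Γ (w (rep i))‖)
  -- collisions
  have hcol : ∑ i ∈ Im, μ i ^ 2 ≤ coll T h0 J := by
    have e1 : ∑ i ∈ Im, μ i ^ 2 = ((P ×ˢ P).filter (fun q => c q.1 = c q.2)).card := by
      rw [card_filter, sum_product]
      push_cast
      rw [← sum_fiberwise_of_maps_to (s := P) (t := Im) (g := c) (fun p hp => by
        rw [hIm]; exact mem_image_of_mem c hp)]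
      refine sum_congr rfl fun i _ => ?_
      have e2 : ∀ p ∈ P.filter (fun p => c p = i), ∑ p' ∈ P, (if c p = c p' then (1 : ℝ) else 0) = μ i := by
        intro p hp
        rw [mem_filter] at hp
        rw [hμ, sum_boole]
        show ((P.filter (fun p' => c p = c p')).card : ℝ) = ((P.filter (fun p => c p = i)).card : ℝ)
        congr 2
        ext p'
        rw [mem_filter, mem_filter, hp.2]
        exact and_congr_right fun _ => eq_comm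
      rw [sum_congr rfl e2, sum_const, nsmul_eq_mul, sq]
      rw [hμ]
    rw [e1]
    unfold coll
    norm_cast
    refine card_le_card_of_injOn (fun q => ((q.1.1, q.2.1), (q.1.2, q.2.2))) ?_ ?_
    · intro q hq
      have hq' := mem_filter.1 (mem_coe.1 hq)
      have hq1 := mem_product.1 hq'.1
      have ha := hPm q.1 hq1.1
      have hb := hPm q.2 hq1.2
      refine mem_coe.2 (mem_filter.2 ⟨?_, ?_⟩)
      · rw [mem_product, mem_product, mem_product, Finset.mem_Ico, Finset.mem_Ico]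
        exact ⟨⟨ha.1, hb.1⟩, ⟨ha.2, hb.2⟩⟩
      · have h3 := hq'.2
        rw [hc] at h3
        have h4 := Int.abs_sub_lt_one_of_floor_eq_floor h3
        rw [← sub_mul, abs_mul, abs_of_pos hT0] at h4
        rw [lt_div_iff₀ hT0]
        rw [hw] at h4
        exact h4
    · intro q _ q' _ hqq
      have h5 := congrArg (fun z => z.1.1) hqq
      have h6 := congrArg (fun z => z.1.2) hqq
      have h7 := congrArg (fun z => z.2.1) hqq
      have h8 := congrArg (fun z => z.2.2) hqq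
      exact Prod.ext (Prod.ext h5 h7) (Prod.ext h6 h8)
  -- the large sieve
  have hpar : ∀ r : ℤ, ∑ i ∈ Im.filter (fun i => i % 2 = r), ‖G Γ (w (rep i))‖ ^ 2 ≤
      K * (2 * h0 * Λ / ℓ) * (T * ℓ) ^ 2 := by
    intro r
    have hsepi : ∀ i ∈ Im.filter (fun i => i % 2 = r), ∀ i' ∈ Im.filter (fun i => i % 2 = r), i ≠ i' →
        1 / T < |w (rep i) - w (rep i')| := by
      intro i hi i' hi' hne
      rw [mem_filter] at hi hi'
      have a1 := hrep2 i hi.1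
      have a2 := hrep2 i' hi'.1
      rw [hc] at a1 a2
      have b1 := Int.floor_le (w (rep i) * T)
      have b2 := Int.lt_floor_add_one (w (rep i) * T)
      have b3 := Int.floor_le (w (rep i') * T)
      have b4 := Int.lt_floor_add_one (w (rep i') * T)
      simp only at a1 a2
      rw [a1] at b1 b2
      rw [a2] at b3 b4
      rw [div_lt_iff₀ hT0]
      have h9 : |w (rep i) - w (rep i')| * T = |w (rep i) * T - w (rep i') * T| := by
        rw [← sub_mul, abs_mul, abs_of_pos hT0]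
      rw [h9]
      rcases lt_or_gt_of_ne hne with hlt | hlt
      · have h10 : i + 2 ≤ i' := by omega
        have h11 : (i : ℝ) + 2 ≤ i' := by exact_mod_cast h10
        rw [abs_sub_comm]
        exact lt_of_lt_of_le (by linarith) (le_abs_self _)
      · have h10 : i' + 2 ≤ i := by omega
        have h11 : (i' : ℝ) + 2 ≤ i := by exact_mod_cast h10
        exact lt_of_lt_of_le (by linarith) (le_abs_self _)
    have hinj : Set.InjOn (fun i => w (rep i)) (Im.filter (fun i => i % 2 = r)) := by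
      intro i hi i' hi' hii
      by_contra hne
      have := hsepi i (mem_coe.1 hi) i' (mem_coe.1 hi') hne
      simp only at hii
      rw [hii, sub_self, abs_zero] at this
      have : 0 < 1 / T := by positivity
      linarith
    have h2 := h1 Γ T ℓ h (2 * h0 * Λ) ((Im.filter (fun i => i % 2 = r)).image (fun i => w (rep i)))
      hΛ (by
        intro x hx
        obtain ⟨i, hi, rfl⟩ := mem_image.1 hx
        rw [mem_filter] at hi
        have h3 := hPm (rep i) (hrep1 i hi.1)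
        have h4 := hJ _ h3.1
        have h5 : 0 ≤ (rep i).1 := h4.1
        rw [hw]
        show |((rep i).2 : ℝ) * (rep i).1| ≤ 2 * h0 * Λ
        rw [abs_of_nonneg (by positivity)]
        have h6 : ((rep i).2 : ℝ) ≤ 2 * h0 := by exact_mod_cast h3.2.2.le
        exact mul_le_mul h6 h4.2 h5 (by positivity)) (by
        intro x hx x' hx' hne
        obtain ⟨i, hi, rfl⟩ := mem_image.1 hx
        obtain ⟨i', hi', rfl⟩ := mem_image.1 hx'
        exact (hsepi i hi i' hi' (fun h => hne (by rw [h]))).le)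
    rw [sum_image hinj] at h2
    exact h2
  have hall : ∑ i ∈ Im, ‖G Γ (w (rep i))‖ ^ 2 ≤ 4 * K * (h0 * Λ / ℓ) * (T * ℓ) ^ 2 := by
    have e1 : ∑ i ∈ Im, ‖G Γ (w (rep i))‖ ^ 2 =
        ∑ i ∈ Im.filter (fun i => i % 2 = 0), ‖G Γ (w (rep i))‖ ^ 2 +
        ∑ i ∈ Im.filter (fun i => i % 2 = 1), ‖G Γ (w (rep i))‖ ^ 2 := by
      rw [← sum_filter_add_sum_filter_not Im (fun i => i % 2 = 0)]
      congr 2
      ext i
      rw [mem_filter, mem_filter]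
      refine and_congr_right fun _ => ?_
      omega
    rw [e1]
    have e2 : 4 * K * (h0 * Λ / ℓ) * (T * ℓ) ^ 2 = K * (2 * h0 * Λ / ℓ) * (T * ℓ) ^ 2 +
      K * (2 * h0 * Λ / ℓ) * (T * ℓ) ^ 2 := by ring
    rw [e2]
    exact add_le_add (hpar 0) (hpar 1)
  have hcoll0 : 0 ≤ coll T h0 J := Nat.cast_nonneg _
  have hfin : ((J.card : ℝ) * (t * (T * ℓ))) ^ 2 ≤
      coll T h0 J * (4 * K * (h0 * Λ / ℓ) * (T * ℓ) ^ 2) := by
    have h2 := hk.trans hstep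
    have h3 : ((J.card : ℝ) * (t * (T * ℓ))) ^ 2 ≤ (∑ i ∈ Im, μ i * ‖G Γ (w (rep i))‖) ^ 2 :=
      pow_le_pow_left₀ (by positivity) h2 2
    refine h3.trans (hCS.trans ?_)
    exact mul_le_mul hcol hall (sum_nonneg fun _ _ => by positivity) hcoll0
  have h4 : ((J.card : ℝ) * t) ^ 2 * (T * ℓ) ^ 2 ≤
      (4 * K * (h0 * Λ / ℓ) * coll T h0 J) * (T * ℓ) ^ 2 := by
    calc ((J.card : ℝ) * t) ^ 2 * (T * ℓ) ^ 2 = ((J.card : ℝ) * (t * (T * ℓ))) ^ 2 := by ring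
      _ ≤ _ := hfin
      _ = _ := by ring
  exact le_of_mul_le_mul_right h4 (by positivity)

lemma log_card_nonneg (n : ℕ) : 0 ≤ Real.log (n : ℝ) := Real.log_natCast_nonneg n

/-- one dyadic range of frequencies -/
theorem block (ls : S_LS) (co3 : S_CO3) (C : ℝ) (hC : 1 ≤ C) : ∃ K : ℝ, 1 ≤ K ∧
    ∀ (Γ : Finset ℝ) (T ℓ : ℝ), Dat Γ T ℓ C → ∀ (h : ℕ) (J : Finset ℝ) (t lam : ℝ), 1 ≤ h →
    16 * (h : ℝ) ^ 2 ≤ T * ℓ → 0 < lam → ℓ ≤ 2 * (h * lam) → lam ≤ ℓ →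
    (∀ v ∈ J, lam ≤ v ∧ v ≤ 2 * lam) →
    (∀ v ∈ J, ∀ v' ∈ J, v ≠ v' → 2 / (h * T) ≤ |v - v'|) → 0 < t →
    (∀ v ∈ J, t * (T * ℓ) ≤ Bh Γ h v) →
    (J.card : ℝ) * t ^ 3 ≤ K * (h * lam / ℓ) * h ^ 2 * (1 + Real.log J.card) ^ 5 := by
  obtain ⟨K, hK, h1⟩ := core ls C hC
  have hK0 : 0 < K := by linarith
  refine ⟨46 * K ^ 2, by nlinarith, ?_⟩
  intro Γ T ℓ hD h J t lam hh hhN hlam hlam1 hlam2 hJ hsep ht hJt
  have hl0 : 0 < ℓ := by linarith [hD.hl]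
  have hT0 : 0 < T := by linarith [hD.hT]
  have hN0 : 0 < T * ℓ := by positivity
  have hh1 : (1 : ℝ) ≤ h := by exact_mod_cast hh
  have hh0 : (0 : ℝ) < h := by linarith
  have h2 := h1 Γ T ℓ hD h J t (2 * lam) hh (by nlinarith)
    (fun v hv => ⟨by linarith [(hJ v hv).1], (hJ v hv).2⟩) ht hJt
  have h8 : 8 * (h : ℝ) ≤ T * lam := by
    have e1 : 8 * (h : ℝ) * (2 * h) ≤ T * lam * (2 * h) := by
      calc 8 * (h : ℝ) * (2 * h) = 16 * (h : ℝ) ^ 2 := by ring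
        _ ≤ T * ℓ := hhN
        _ ≤ T * (2 * (h * lam)) := by gcongr
        _ = T * lam * (2 * h) := by ring
    exact le_of_mul_le_mul_right e1 (by positivity)
  have h3 := co3 T lam h J hT0 hlam hh h8 (fun v hv => (hJ v hv).1) hsep
  rw [show (((((J ×ˢ J) ×ˢ (Finset.Ico h (2 * h) ×ˢ Finset.Ico h (2 * h))).filter
    (fun q : (ℝ × ℝ) × (ℕ × ℕ) => |(q.2.1 : ℝ) * q.1.1 - (q.2.2 : ℝ) * q.1.2| < 1 / T)).card : ℝ)) =
    coll T h J from rfl] at h3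
  rcases Nat.eq_zero_or_pos J.card with hz | hpos
  · rw [hz]; simp only [Nat.cast_zero, Real.log_zero, zero_mul]; positivity
  have hk : (0 : ℝ) < J.card := by exact_mod_cast hpos
  obtain ⟨k, hkk⟩ : ∃ k : ℝ, k = J.card := ⟨_, rfl⟩
  obtain ⟨L, hL⟩ : ∃ L : ℝ, L = 1 + Real.log k := ⟨_, rfl⟩
  obtain ⟨μ, hμ⟩ : ∃ μ : ℝ, μ = h * lam / ℓ := ⟨_, rfl⟩
  have hL1 : 1 ≤ L := by
    rw [hL, hkk]
    have := log_card_nonneg J.card
    linarith
  have hμ0 : 0 < μ := by rw [hμ]; positivity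
  have hμh : μ ≤ h := by
    rw [hμ, div_le_iff₀ hl0]
    exact mul_le_mul_of_nonneg_left hlam2 hh0.le
  have hlam' : lam = μ * ℓ / h := by
    rw [hμ, div_mul_cancel₀ _ hl0.ne', mul_div_cancel_left₀ _ hh0.ne']
  rw [← hkk, ← hL] at h3 ⊢
  rw [← hkk] at h2 hk
  rw [← hμ]
  have h2' : (k * t) ^ 2 ≤ 2 * K * μ * coll T h J := by
    refine h2.trans (le_of_eq ?_)
    rw [hμ]; ring
  have hcoll0 : 0 ≤ coll T h J := Nat.cast_nonneg _
  have h4 : (k * t) ^ 6 ≤ 8 * K ^ 3 * μ ^ 3 * (64 * (h : ℝ) ^ 3 * k ^ 4 *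
      (48 * (h : ℝ) ^ 2 / (T * lam) + 1) * L ^ 9) := by
    calc (k * t) ^ 6 = ((k * t) ^ 2) ^ 3 := by ring
      _ ≤ (2 * K * μ * coll T h J) ^ 3 := pow_le_pow_left₀ (by positivity) h2' 3
      _ = 8 * K ^ 3 * μ ^ 3 * coll T h J ^ 3 := by ring
      _ ≤ _ := by gcongr
  have h5 : μ ^ 3 * (h : ℝ) ^ 3 * (48 * (h : ℝ) ^ 2 / (T * lam) + 1) ≤ 4 * μ ^ 2 * (h : ℝ) ^ 4 := by
    have e1 : μ ^ 3 * (h : ℝ) ^ 3 * (48 * (h : ℝ) ^ 2 / (T * lam) + 1) =
        μ ^ 2 * (h : ℝ) ^ 4 * (48 * (h : ℝ) ^ 2 / (T * ℓ)) + μ ^ 2 * (h : ℝ) ^ 3 * μ := by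
      rw [hlam']
      field_simp
    have e2 : 48 * (h : ℝ) ^ 2 / (T * ℓ) ≤ 3 := by
      rw [div_le_iff₀ hN0]; linarith
    rw [e1]
    have e3 : μ ^ 2 * (h : ℝ) ^ 4 * (48 * (h : ℝ) ^ 2 / (T * ℓ)) ≤ μ ^ 2 * (h : ℝ) ^ 4 * 3 := by gcongr
    have e4 : μ ^ 2 * (h : ℝ) ^ 3 * μ ≤ μ ^ 2 * (h : ℝ) ^ 3 * h := by gcongr
    linarith
  have h6 : (k * t ^ 3) ^ 2 ≤ (46 * K ^ 2 * μ * (h : ℝ) ^ 2 * L ^ 5) ^ 2 := by
    have e1 : (k * t ^ 3) ^ 2 * k ^ 4 ≤ (46 * K ^ 2 * μ * (h : ℝ) ^ 2 * L ^ 5) ^ 2 * k ^ 4 := by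
      calc (k * t ^ 3) ^ 2 * k ^ 4 = (k * t) ^ 6 := by ring
        _ ≤ _ := h4
        _ = 512 * K ^ 3 * k ^ 4 * L ^ 9 * (μ ^ 3 * (h : ℝ) ^ 3 * (48 * (h : ℝ) ^ 2 / (T * lam) + 1)) := by
          ring
        _ ≤ 512 * K ^ 3 * k ^ 4 * L ^ 9 * (4 * μ ^ 2 * (h : ℝ) ^ 4) := by gcongr
        _ = 2048 * (K ^ 3 * (L ^ 9 * (μ ^ 2 * (h : ℝ) ^ 4 * k ^ 4))) := by ring
        _ ≤ 2116 * (K ^ 4 * (L ^ 10 * (μ ^ 2 * (h : ℝ) ^ 4 * k ^ 4))) := by
          have f1 : K ^ 3 ≤ K ^ 4 := pow_le_pow_right₀ hK (by norm_num)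
          have f2 : L ^ 9 ≤ L ^ 10 := pow_le_pow_right₀ hL1 (by norm_num)
          gcongr
          norm_num
        _ = (46 * K ^ 2 * μ * (h : ℝ) ^ 2 * L ^ 5) ^ 2 * k ^ 4 := by ring
    exact le_of_mul_le_mul_right e1 (by positivity)
  exact le_of_sq_le_sq h6 (by positivity)

theorem s_we3 (ls : S_LS) (co3 : S_CO3) : S_WE3 := by
  classical
  intro C hC
  obtain ⟨K, hK, h1⟩ := block ls co3 C hC
  have hK0 : 0 < K := by linarith
  refine ⟨K, hK, ?_⟩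
  intro Γ T ℓ hD h J t hh hhN hJ hsep ht hJt
  have hl0 : 0 < ℓ := by linarith [hD.hl]
  have hT0 : 0 < T := by linarith [hD.hT]
  have hh1 : (1 : ℝ) ≤ h := by exact_mod_cast hh
  have hh0 : (0 : ℝ) < h := by linarith
  rcases Nat.eq_zero_or_pos J.card with hz | hpos
  · rw [hz]; simp only [Nat.cast_zero, Real.log_zero]; positivity
  have hL1 : 1 ≤ 1 + Real.log J.card := by
    have := log_card_nonneg J.card
    linarith
  set Jj : ℕ → Finset ℝ := fun j => J.filter (fun v => ℓ / 2 ^ (j + 1) ≤ v ∧ v ≤ ℓ / 2 ^ j) with hJj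
  set I := Finset.range (Nat.log 2 h + 1) with hI
  have hcov : J ⊆ I.biUnion Jj := by
    intro v hv
    obtain ⟨h2, h3⟩ := hJ v hv
    have hv0 : 0 < v := lt_of_lt_of_le (by positivity) h2
    have hx1 : 1 ≤ ℓ / v := by rw [le_div_iff₀ hv0]; linarith
    have hxh : ℓ / v ≤ h := by
      rw [div_le_iff₀ hv0]
      rw [div_le_iff₀ hh0] at h2
      linarith
    obtain ⟨j, hj1, hj2⟩ := exists_nat_pow_near hx1 (by norm_num : (1 : ℝ) < 2)
    rw [mem_biUnion]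
    refine ⟨j, ?_, ?_⟩
    · rw [hI, Finset.mem_range]
      have h4 : (2 : ℝ) ^ j ≤ h := hj1.trans hxh
      have h5 : 2 ^ j ≤ h := by exact_mod_cast h4
      have h6 : j ≤ Nat.log 2 h := (Nat.le_log_iff_pow_le (by norm_num) (by omega)).2 h5
      omega
    · rw [hJj, mem_filter]
      refine ⟨hv, ?_, ?_⟩
      · rw [div_le_iff₀ (by positivity)]
        rw [div_lt_iff₀ hv0] at hj2
        linarith
      · rw [le_div_iff₀ (by positivity)]
        rw [le_div_iff₀ hv0] at hj1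
        linarith
  have hblock : ∀ j ∈ I, ((Jj j).card : ℝ) * t ^ 3 ≤
      K * h ^ 3 * (1 + Real.log J.card) ^ 5 * (1 / 2) ^ (j + 1) := by
    intro j hj
    rw [hI, Finset.mem_range] at hj
    have h2j : 2 ^ j ≤ h := (Nat.le_log_iff_pow_le (by norm_num) (by omega)).1 (by omega)
    have h2jR : (2 : ℝ) ^ j ≤ h := by exact_mod_cast h2j
    have h3 := h1 Γ T ℓ hD h (Jj j) t (ℓ / 2 ^ (j + 1)) hh hhN (by positivity) (by
      rw [mul_div_assoc', mul_div_assoc', le_div_iff₀ (by positivity), pow_succ]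
      nlinarith) (by
      rw [div_le_iff₀ (by positivity)]
      have : (1 : ℝ) ≤ 2 ^ (j + 1) := one_le_pow₀ (by norm_num)
      nlinarith) (by
      intro v hv
      have h4 := (mem_filter.1 hv).2
      refine ⟨h4.1, h4.2.trans (le_of_eq ?_)⟩
      rw [pow_succ]; field_simp) (fun v hv v' hv' hne => hsep v (mem_filter.1 hv).1 v'
        (mem_filter.1 hv').1 hne) ht (fun v hv => hJt v (mem_filter.1 hv).1)
    refine h3.trans ?_
    have h5 : Real.log ((Jj j).card : ℝ) ≤ Real.log J.card := by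
      rcases Nat.eq_zero_or_pos (Jj j).card with hz | hp
      · rw [hz]; simp only [Nat.cast_zero, Real.log_zero]; exact log_card_nonneg _
      · apply Real.log_le_log (by exact_mod_cast hp)
        exact_mod_cast card_le_card (filter_subset _ _)
    have h6 : 0 ≤ Real.log ((Jj j).card : ℝ) := log_card_nonneg _
    have h7 : K * (h * (ℓ / 2 ^ (j + 1)) / ℓ) * (h : ℝ) ^ 2 = K * (h : ℝ) ^ 3 * (1 / 2) ^ (j + 1) := by
      rw [one_div, inv_pow]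
      field_simp
    rw [h7]
    calc K * (h : ℝ) ^ 3 * (1 / 2) ^ (j + 1) * (1 + Real.log ((Jj j).card : ℝ)) ^ 5 ≤
        K * (h : ℝ) ^ 3 * (1 / 2) ^ (j + 1) * (1 + Real.log J.card) ^ 5 := by gcongr
      _ = _ := by ring
  have hcard : (J.card : ℝ) ≤ ∑ j ∈ I, ((Jj j).card : ℝ) := by
    have : J.card ≤ ∑ j ∈ I, (Jj j).card := (card_le_card hcov).trans card_biUnion_le
    exact_mod_cast this
  have hgeo : ∑ j ∈ I, (1 / 2 : ℝ) ^ (j + 1) ≤ 1 := by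
    have h3 : ∑ j ∈ I, (1 / 2 : ℝ) ^ (j + 1) = (1 / 2) * ∑ j ∈ I, (1 / 2 : ℝ) ^ j := by
      rw [mul_sum]
      exact sum_congr rfl fun j _ => by rw [pow_succ]; ring
    rw [h3]
    have h4 : ∑ j ∈ I, (1 / 2 : ℝ) ^ j ≤ 2 := by
      rw [hI]
      have := geom_sum_eq (by norm_num : (1 / 2 : ℝ) ≠ 1) (Nat.log 2 h + 1)
      rw [this]
      have : (0 : ℝ) ≤ (1 / 2) ^ (Nat.log 2 h + 1) := by positivity
      rw [div_le_iff_of_neg (by norm_num)]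
      linarith
    linarith
  have hfin : (J.card : ℝ) * t ^ 3 ≤ K * h ^ 3 * (1 + Real.log J.card) ^ 5 := by
    calc (J.card : ℝ) * t ^ 3 ≤ (∑ j ∈ I, ((Jj j).card : ℝ)) * t ^ 3 := by gcongr
      _ = ∑ j ∈ I, ((Jj j).card : ℝ) * t ^ 3 := by rw [sum_mul]
      _ ≤ ∑ j ∈ I, K * h ^ 3 * (1 + Real.log J.card) ^ 5 * (1 / 2) ^ (j + 1) := sum_le_sum hblock
      _ = K * h ^ 3 * (1 + Real.log J.card) ^ 5 * ∑ j ∈ I, (1 / 2 : ℝ) ^ (j + 1) := by rw [mul_sum]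
      _ ≤ K * h ^ 3 * (1 + Real.log J.card) ^ 5 * 1 := by gcongr
      _ = _ := by ring
  rw [div_mul_eq_mul_div, le_div_iff₀ (by positivity)]
  exact hfin

end Pool.Agent.L7h52.LF
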