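import Pool.Agent.L7h52.LF.Stm

/-! Project LF: few frequencies with many large multiples. -/

set_option autoImplicit false

open Finset MeasureTheory

namespace Pool.Agent.L7h52.LF

open Pool.Agent.L7h52.AR (G Dat cnt)

theorem s_l2d (ls : S_LS) : S_L2D := by
  classical
  intro C hC
  obtain ⟨K, hK, h1⟩ := ls C hC
  refine ⟨2 * K, by linarith, ?_⟩
  intro Γ T ℓ h h0 J hh hJ hsep
  have hl0 : 0 < ℓ := by linarith [h.hl]
  have hT0 : 0 < T := by linarith [h.hT]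
  have hh1 : (1 : ℝ) ≤ h0 := by exact_mod_cast hh
  have ha : ∀ a ∈ Finset.Ico h0 (2 * h0), ∑ v ∈ J, ‖G Γ (a * v)‖ ^ 2 ≤ K * (2 * h0) * (T * ℓ) ^ 2 := by
    intro a ha
    rw [Finset.mem_Ico] at ha
    have ha1 : (h0 : ℝ) ≤ a := by exact_mod_cast ha.1
    have ha2 : (a : ℝ) ≤ 2 * h0 := by exact_mod_cast ha.2.le
    have ha0 : (0 : ℝ) < a := by linarith
    have hinj : Set.InjOn (fun v : ℝ => (a : ℝ) * v) J := by
      intro v _ v' _ hvv
      exact mul_left_cancel₀ ha0.ne' hvv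
    have h2 := h1 Γ T ℓ h (2 * h0 * ℓ) (J.image (fun v : ℝ => (a : ℝ) * v)) (by nlinarith) (by
      intro w hw
      obtain ⟨v, hv, rfl⟩ := mem_image.1 hw
      have h3 := hJ v hv
      rw [abs_of_nonneg (mul_nonneg ha0.le h3.1)]
      exact mul_le_mul ha2 h3.2 h3.1 (by positivity)) (by
      intro w hw w' hw' hne
      obtain ⟨v, hv, rfl⟩ := mem_image.1 hw
      obtain ⟨v', hv', rfl⟩ := mem_image.1 hw'
      have h3 : v ≠ v' := fun h => hne (by rw [h])
      have h4 := hsep v hv v' hv' h3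
      rw [← mul_sub, abs_mul, abs_of_pos ha0]
      calc 1 / T ≤ (a : ℝ) * (2 / (h0 * T)) := by
            rw [mul_div_assoc', div_le_div_iff₀ hT0 (by positivity)]
            nlinarith
        _ ≤ (a : ℝ) * |v - v'| := by gcongr)
    rw [sum_image hinj] at h2
    have h5 : 2 * (h0 : ℝ) * ℓ / ℓ = 2 * h0 := by field_simp
    rw [h5] at h2
    exact h2
  have hb : ∀ v : ℝ, Bh Γ h0 v ^ 2 ≤ h0 * ∑ a ∈ Finset.Ico h0 (2 * h0), ‖G Γ (a * v)‖ ^ 2 := by
    intro v
    have h2 := sq_sum_le_card_mul_sum_sq (s := Finset.Ico h0 (2 * h0)) (f := fun a : ℕ => ‖G Γ (a * v)‖)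
    rw [Nat.card_Ico, show 2 * h0 - h0 = h0 by omega] at h2
    exact h2
  calc ∑ v ∈ J, Bh Γ h0 v ^ 2 ≤ ∑ v ∈ J, (h0 : ℝ) * ∑ a ∈ Finset.Ico h0 (2 * h0), ‖G Γ (a * v)‖ ^ 2 :=
        sum_le_sum fun v _ => hb v
    _ = h0 * ∑ a ∈ Finset.Ico h0 (2 * h0), ∑ v ∈ J, ‖G Γ (a * v)‖ ^ 2 := by
        rw [← mul_sum, sum_comm]
    _ ≤ h0 * ∑ a ∈ Finset.Ico h0 (2 * h0), K * (2 * h0) * (T * ℓ) ^ 2 := by
        gcongr with a haa
        exact ha a haa
    _ = 2 * K * h0 ^ 3 * (T * ℓ) ^ 2 := by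
        rw [sum_const, Nat.card_Ico, show 2 * h0 - h0 = h0 by omega, nsmul_eq_mul]
        ring

theorem s_wea (ls : S_LS) (col : S_COL) : S_WEA := by
  classical
  intro C hC
  obtain ⟨K, hK, h1⟩ := ls C hC
  have hK0 : 0 < K := by linarith
  refine ⟨576 * K ^ 2, by nlinarith, ?_⟩
  intro Γ T ℓ h h0 J t hh hhN hJ hsep ht hJt
  have hl0 : 0 < ℓ := by linarith [h.hl]
  have hT0 : 0 < T := by linarith [h.hT]
  have hN0 : 0 < T * ℓ := by positivity
  have hh1 : (1 : ℝ) ≤ h0 := by exact_mod_cast hh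
  have hh00 : (0 : ℝ) < h0 := by linarith
  obtain ⟨P, hP⟩ : ∃ P : Finset (ℝ × ℕ), P = J ×ˢ Finset.Ico h0 (2 * h0) := ⟨_, rfl⟩
  obtain ⟨w, hw⟩ : ∃ w : ℝ × ℕ → ℝ, w = fun p => (p.2 : ℝ) * p.1 := ⟨_, rfl⟩
  obtain ⟨c, hc⟩ : ∃ c : ℝ × ℕ → ℤ, c = fun p => ⌊w p * T⌋ := ⟨_, rfl⟩
  have hPm : ∀ p ∈ P, p.1 ∈ J ∧ h0 ≤ p.2 ∧ p.2 < 2 * h0 := by
    intro p hp
    rw [hP, mem_product, Finset.mem_Ico] at hp
    exact hp
  -- the number of points
  have hk : (J.card : ℝ) * (t * (T * ℓ)) ≤ ∑ p ∈ P, ‖G Γ (w p)‖ := by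
    rw [hP, sum_product, ← nsmul_eq_mul, ← sum_const]
    refine sum_le_sum fun v hv => ?_
    have := hJt v hv
    unfold Bh at this
    rw [hw]
    exact this
  -- representatives
  obtain ⟨Im, hIm⟩ : ∃ Im : Finset ℤ, Im = P.image c := ⟨_, rfl⟩
  have hrep : ∀ i ∈ Im, ∃ p ∈ P, c p = i ∧ ∀ p' ∈ P, c p' = i → ‖G Γ (w p')‖ ≤ ‖G Γ (w p)‖ := by
    intro i hi
    rw [hIm, mem_image] at hi
    obtain ⟨p0, hp0, hp0i⟩ := hi
    obtain ⟨p, hp, hmax⟩ := exists_max_image (P.filter (fun p => c p = i)) (fun p => ‖G Γ (w p)‖)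
      ⟨p0, mem_filter.2 ⟨hp0, hp0i⟩⟩
    rw [mem_filter] at hp
    exact ⟨p, hp.1, hp.2, fun p' hp' hi' => hmax p' (mem_filter.2 ⟨hp', hi'⟩)⟩
  choose! rep hrep1 hrep2 hrep3 using hrep
  obtain ⟨μ, hμ⟩ : ∃ μ : ℤ → ℝ, μ = fun i => ((P.filter (fun p => c p = i)).card : ℝ) := ⟨_, rfl⟩
  have hstep : ∑ p ∈ P, ‖G Γ (w p)‖ ≤ ∑ i ∈ Im, μ i * ‖G Γ (w (rep i))‖ := by
    rw [← sum_fiberwise_of_maps_to (s := P) (t := Im) (g := c) (fun p hp => by
      rw [hIm]; exact mem_image_of_mem c hp)]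
    refine sum_le_sum fun i hi => ?_
    rw [hμ]
    rw [← nsmul_eq_mul, ← sum_const]
    refine sum_le_sum fun p hp => ?_
    rw [mem_filter] at hp
    exact hrep3 i hi p hp.1 hp.2
  have hCS := Finset.sum_mul_sq_le_sq_mul_sq Im μ (fun i => ‖G Γ (w (rep i))‖)
  -- collisions
  have hcol : ∑ i ∈ Im, μ i ^ 2 ≤ 6 * h0 * J.card * Real.sqrt J.card := by
    have e1 : ∑ i ∈ Im, μ i ^ 2 = ((P ×ˢ P).filter (fun q => c q.1 = c q.2)).card := by
      rw [card_filter, sum_product]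
      push_cast
      rw [← sum_fiberwise_of_maps_to (s := P) (t := Im) (g := c) (fun p hp => by
        rw [hIm]; exact mem_image_of_mem c hp)]
      refine sum_congr rfl fun i _ => ?_
      have e2 : ∀ p ∈ P.filter (fun p => c p = i), ∑ p' ∈ P, (if c p = c p' then (1 : ℝ) else 0) = μ i := by
        intro p hp
        rw [mem_filter] at hp
        rw [hμ, sum_boole]
        show ((P.filter (fun p' => c p = c p')).card : ℝ) = ((P.filter (fun p => c p = i)).card : ℝ)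
        congr 2
        ext p'
        rw [mem_filter, mem_filter, hp.2]
        exact and_congr_right fun _ => eq_comm
      rw [sum_congr rfl e2, sum_const, nsmul_eq_mul, sq]
      rw [hμ]
    rw [e1]
    refine le_trans ?_ (col T ℓ h0 J hT0 hl0 hh hhN (fun v hv => (hJ v hv).1) hsep)
    norm_cast
    refine card_le_card_of_injOn (fun q => ((q.1.1, q.2.1), (q.1.2, q.2.2))) ?_ ?_
    · intro q hq
      have hq' := mem_filter.1 (mem_coe.1 hq)
      have hq1 := mem_product.1 hq'.1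
      have ha := hPm q.1 hq1.1
      have hb := hPm q.2 hq1.2
      refine mem_coe.2 (mem_filter.2 ⟨?_, ?_⟩)
      · rw [mem_product, mem_product, mem_product, Finset.mem_Ico, Finset.mem_Ico]
        exact ⟨⟨ha.1, hb.1⟩, ⟨ha.2, hb.2⟩⟩
      · have h3 := hq'.2
        rw [hc] at h3
        have h4 := Int.abs_sub_lt_one_of_floor_eq_floor h3
        rw [← sub_mul, abs_mul, abs_of_pos hT0] at h4
        rw [lt_div_iff₀ hT0]
        rw [hw] at h4
        exact h4
    · intro q _ q' _ hqq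
      have h5 := congrArg (fun z => z.1.1) hqq
      have h6 := congrArg (fun z => z.1.2) hqq
      have h7 := congrArg (fun z => z.2.1) hqq
      have h8 := congrArg (fun z => z.2.2) hqq
      exact Prod.ext (Prod.ext h5 h7) (Prod.ext h6 h8)
  -- the large sieve
  have hpar : ∀ r : ℤ, ∑ i ∈ Im.filter (fun i => i % 2 = r), ‖G Γ (w (rep i))‖ ^ 2 ≤
      K * (2 * h0) * (T * ℓ) ^ 2 := by
    intro r
    have hsepi : ∀ i ∈ Im.filter (fun i => i % 2 = r), ∀ i' ∈ Im.filter (fun i => i % 2 = r), i ≠ i' →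
        1 / T < |w (rep i) - w (rep i')| := by
      intro i hi i' hi' hne
      rw [mem_filter] at hi hi'
      have a1 := hrep2 i hi.1
      have a2 := hrep2 i' hi'.1
      rw [hc] at a1 a2
      have b1 := Int.floor_le (w (rep i) * T)
      have b2 := Int.lt_floor_add_one (w (rep i) * T)
      have b3 := Int.floor_le (w (rep i') * T)
      have b4 := Int.lt_floor_add_one (w (rep i') * T)
      simp only at a1 a2
      rw [a1] at b1 b2
      rw [a2] at b3 b4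
      rw [div_lt_iff₀ hT0]
      have h9 : |w (rep i) - w (rep i')| * T = |w (rep i) * T - w (rep i') * T| := by
        rw [← sub_mul, abs_mul, abs_of_pos hT0]
      rw [h9]
      rcases lt_or_gt_of_ne hne with hlt | hlt
      · have h10 : i + 2 ≤ i' := by omega
        have h11 : (i : ℝ) + 2 ≤ i' := by exact_mod_cast h10
        rw [abs_sub_comm]
        exact lt_of_lt_of_le (by linarith) (le_abs_self _)
      · have h10 : i' + 2 ≤ i := by omega
        have h11 : (i' : ℝ) + 2 ≤ i := by exact_mod_cast h10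
        exact lt_of_lt_of_le (by linarith) (le_abs_self _)
    have hinj : Set.InjOn (fun i => w (rep i)) (Im.filter (fun i => i % 2 = r)) := by
      intro i hi i' hi' hii
      by_contra hne
      have := hsepi i (mem_coe.1 hi) i' (mem_coe.1 hi') hne
      simp only at hii
      rw [hii, sub_self, abs_zero] at this
      have : 0 < 1 / T := by positivity
      linarith
    have h2 := h1 Γ T ℓ h (2 * h0 * ℓ) ((Im.filter (fun i => i % 2 = r)).image (fun i => w (rep i)))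
      (by nlinarith) (by
        intro x hx
        obtain ⟨i, hi, rfl⟩ := mem_image.1 hx
        rw [mem_filter] at hi
        have h3 := hPm (rep i) (hrep1 i hi.1)
        have h4 := hJ _ h3.1
        have h5 : 0 ≤ (rep i).1 := le_trans (by positivity) h4.1
        rw [hw]
        show |((rep i).2 : ℝ) * (rep i).1| ≤ 2 * h0 * ℓ
        rw [abs_of_nonneg (by positivity)]
        have h6 : ((rep i).2 : ℝ) ≤ 2 * h0 := by exact_mod_cast h3.2.2.le
        exact mul_le_mul h6 h4.2 h5 (by positivity)) (by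
        intro x hx x' hx' hne
        obtain ⟨i, hi, rfl⟩ := mem_image.1 hx
        obtain ⟨i', hi', rfl⟩ := mem_image.1 hx'
        exact (hsepi i hi i' hi' (fun h => hne (by rw [h]))).le)
    rw [sum_image hinj] at h2
    have h5 : 2 * (h0 : ℝ) * ℓ / ℓ = 2 * h0 := by field_simp
    rw [h5] at h2
    exact h2
  have hall : ∑ i ∈ Im, ‖G Γ (w (rep i))‖ ^ 2 ≤ 4 * K * h0 * (T * ℓ) ^ 2 := by
    have e1 : ∑ i ∈ Im, ‖G Γ (w (rep i))‖ ^ 2 =
        ∑ i ∈ Im.filter (fun i => i % 2 = 0), ‖G Γ (w (rep i))‖ ^ 2 +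
        ∑ i ∈ Im.filter (fun i => i % 2 = 1), ‖G Γ (w (rep i))‖ ^ 2 := by
      rw [← sum_filter_add_sum_filter_not Im (fun i => i % 2 = 0)]
      congr 2
      ext i
      rw [mem_filter, mem_filter]
      refine and_congr_right fun _ => ?_
      omega
    rw [e1]
    linarith [hpar 0, hpar 1]
  have hfin : ((J.card : ℝ) * (t * (T * ℓ))) ^ 2 ≤
      (6 * h0 * J.card * Real.sqrt J.card) * (4 * K * h0 * (T * ℓ) ^ 2) := by
    have h2 := hk.trans hstep
    have h3 : ((J.card : ℝ) * (t * (T * ℓ))) ^ 2 ≤ (∑ i ∈ Im, μ i * ‖G Γ (w (rep i))‖) ^ 2 :=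
      pow_le_pow_left₀ (by positivity) h2 2
    refine h3.trans (hCS.trans ?_)
    exact mul_le_mul hcol hall (sum_nonneg fun _ _ => by positivity) (by positivity)
  -- conclusion
  rcases Nat.eq_zero_or_pos J.card with h0k | hkpos
  · rw [h0k]; simp only [Nat.cast_zero]; positivity
  have hkp : (0 : ℝ) < J.card := by exact_mod_cast hkpos
  obtain ⟨s, hs⟩ : ∃ s : ℝ, s = Real.sqrt J.card := ⟨_, rfl⟩
  have hs2 : s * s = J.card := by rw [hs]; exact Real.mul_self_sqrt hkp.le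
  have hs0 : 0 < s := by rw [hs]; exact Real.sqrt_pos.2 hkp
  rw [← hs, ← hs2] at hfin
  rw [← hs2]
  have h4 : s * t ^ 2 ≤ 24 * K * h0 ^ 2 := by
    have h5 : (s * t ^ 2) * (s ^ 3 * (T * ℓ) ^ 2) ≤ (24 * K * h0 ^ 2) * (s ^ 3 * (T * ℓ) ^ 2) := by
      calc (s * t ^ 2) * (s ^ 3 * (T * ℓ) ^ 2) = (s * s * (t * (T * ℓ))) ^ 2 := by ring
        _ ≤ 6 * h0 * (s * s) * s * (4 * K * h0 * (T * ℓ) ^ 2) := hfin
        _ = (24 * K * h0 ^ 2) * (s ^ 3 * (T * ℓ) ^ 2) := by ring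
    exact le_of_mul_le_mul_right h5 (by positivity)
  rw [le_div_iff₀ (by positivity)]
  calc s * s * t ^ 4 = (s * t ^ 2) ^ 2 := by ring
    _ ≤ (24 * K * h0 ^ 2) ^ 2 := pow_le_pow_left₀ (by positivity) h4 2
    _ = 576 * K ^ 2 * h0 ^ 4 := by ring

end Pool.Agent.L7h52.LF
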